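import Pool.Agent.Lib.MP_99e3ed_co.H98.ZCount

/-!
Ratio form of Kahn's conjecture: the arithmetic part of (Z) for `k ≥ 5`, `d ≤ 5`.
-/

set_option autoImplicit false

open Finset

namespace Pool.Agent.Lib.MP_99e3ed_co.H98

/-- region 2, `d = 5` -/
lemma reg2_d5 (k w : ℕ) (N E : ℝ) (c : ℕ → ℝ) (H : Hyp k w 5 N E c) (hk : 5 ≤ k)
    (hE : E ≤ N * 5) (hN : (k : ℝ) + 10 / 9 * (k * 5) - 9 ≤ N) :
    ∑ h ∈ range (k + 1), (w.choose h : ℝ) * c (k - h) ≤ (N + w) * c (k - 1) := by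
  have hkr : (5 : ℝ) ≤ k := by exact_mod_cast hk
  obtain ⟨a, ha⟩ : ∃ a : ℝ, (k : ℝ) = 5 + a := ⟨k - 5, by ring⟩
  have ha0 : 0 ≤ a := by linarith
  refine reg2 k w 5 N E c (k / 3 + 1) (5 / 2) (8 / 5) H (by omega) (by push_cast; exact hE)
    (by linarith) (by norm_num) (by norm_num) ?_ ?_ ?_ ?_ ?_
  · push_cast; linarith
  · push_cast
    rw [ha] at hN ⊢
    nlinarith [mul_nonneg ha0 ha0]
  · intro _; push_cast
    rw [ha] at hN ⊢
    nlinarith [mul_nonneg ha0 ha0]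
  · intro _ _; push_cast
    rw [ha] at hN ⊢
    nlinarith [mul_nonneg ha0 ha0]
  · intro _ _; push_cast
    rw [ha] at hN ⊢
    nlinarith [mul_nonneg ha0 ha0]

/-- region 2, `d = 4` -/
lemma reg2_d4 (k w : ℕ) (N E : ℝ) (c : ℕ → ℝ) (H : Hyp k w 4 N E c) (hk : 5 ≤ k)
    (hE : E ≤ N * 4) (hN : (k : ℝ) + 10 / 9 * (k * 4) - 7 ≤ N) :
    ∑ h ∈ range (k + 1), (w.choose h : ℝ) * c (k - h) ≤ (N + w) * c (k - 1) := by
  have hkr : (5 : ℝ) ≤ k := by exact_mod_cast hk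
  obtain ⟨a, ha⟩ : ∃ a : ℝ, (k : ℝ) = 5 + a := ⟨k - 5, by ring⟩
  have ha0 : 0 ≤ a := by linarith
  refine reg2 k w 4 N E c (k / 3 + 1) 2 1 H (by omega) (by push_cast; exact hE)
    (by linarith) (by norm_num) (by norm_num) ?_ ?_ ?_ ?_ ?_
  · push_cast; linarith
  · push_cast
    rw [ha] at hN ⊢
    nlinarith [mul_nonneg ha0 ha0]
  · intro _; push_cast
    rw [ha] at hN ⊢
    nlinarith [mul_nonneg ha0 ha0]
  · intro _ _; push_cast
    rw [ha] at hN ⊢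
    nlinarith [mul_nonneg ha0 ha0]
  · intro _ h; omega

/-- region 2, `d = 3` -/
lemma reg2_d3 (k w : ℕ) (N E : ℝ) (c : ℕ → ℝ) (H : Hyp k w 3 N E c) (hk : 5 ≤ k)
    (hE : E ≤ N * 3) (hN : (k : ℝ) + 10 / 9 * (k * 3) - 5 ≤ N) :
    ∑ h ∈ range (k + 1), (w.choose h : ℝ) * c (k - h) ≤ (N + w) * c (k - 1) := by
  have hkr : (5 : ℝ) ≤ k := by exact_mod_cast hk
  obtain ⟨a, ha⟩ : ∃ a : ℝ, (k : ℝ) = 5 + a := ⟨k - 5, by ring⟩
  have ha0 : 0 ≤ a := by linarith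
  refine reg2 k w 3 N E c (k / 3 + 1) 1 1 H (by omega) (by push_cast; exact hE)
    (by linarith) le_rfl le_rfl ?_ ?_ ?_ ?_ ?_
  · push_cast; linarith
  · push_cast
    rw [ha] at hN ⊢
    nlinarith [mul_nonneg ha0 ha0]
  · intro _; push_cast
    rw [ha] at hN ⊢
    nlinarith [mul_nonneg ha0 ha0]
  · intro _ h; omega
  · intro _ h; omega

/-- region 1, `d = 5` -/
lemma reg1_d5 (k w : ℕ) (N E M : ℝ) (c : ℕ → ℝ) (H : Hyp k w 5 N E c) (hk : 5 ≤ k)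
    (hE : E ≤ 2 * 5 * (N - M)) (hM : (k : ℝ) - 1 + (1 / 2 * k - 1) * 5 ≤ M) :
    ∑ h ∈ range (k + 1), (w.choose h : ℝ) * c (k - h) ≤ (N + w) * c (k - 1) := by
  have hkr : (5 : ℝ) ≤ k := by exact_mod_cast hk
  obtain ⟨a, ha⟩ : ∃ a : ℝ, (k : ℝ) = 5 + a := ⟨k - 5, by ring⟩
  have ha0 : 0 ≤ a := by linarith
  have key : ∀ κ : ℝ, 0 ≤ κ → 8 * 5 * κ * ((k : ℝ) - 1 + (1 / 2 * k - 1) * 5) ≤
      8 * 5 * κ * M := by
    intro κ hκ
    exact mul_le_mul_of_nonneg_left hM (by positivity)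
  refine reg1 k w 5 N E M (19 / 4 * (k * (k - 2))) c (3 / 5 * k + 26 / 5) (4 / 5 * k + 32 / 5)
    (19 / 40 * (k - 2)) (1 + 2 / 25 * (k - 3)) (16 / 125 * k + 128 / 125) H
    (by omega) (by push_cast; exact hE) ?_ (by linarith) (by linarith) (by linarith)
    ?_ ?_ ?_ ?_ ?_ ?_ ?_
  · nlinarith
  · push_cast
    refine le_trans ?_ (key _ (by linarith))
    rw [ha]
    nlinarith [mul_nonneg ha0 ha0]
  · refine r1a N 5 _ M E _ H.hN (by linarith) hE ?_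
    refine le_trans ?_ (key _ (by linarith))
    rw [ha]
    nlinarith [mul_nonneg ha0 ha0]
  · intro _
    refine r1a N 5 _ M E _ H.hN (by linarith) hE ?_
    refine le_trans ?_ (key _ (by linarith))
    rw [ha]
    nlinarith [mul_nonneg ha0 ha0]
  · push_cast
    nlinarith
  · intro _
    push_cast
    rw [ha]
    nlinarith [mul_nonneg ha0 ha0]
  · intro _ _
    push_cast
    rw [ha]
    nlinarith [mul_nonneg ha0 ha0]
  · intro _ _
    push_cast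
    rw [ha]
    nlinarith [mul_nonneg ha0 ha0]

/-- region 1, `d = 4` -/
lemma reg1_d4 (k w : ℕ) (N E M : ℝ) (c : ℕ → ℝ) (H : Hyp k w 4 N E c) (hk : 5 ≤ k)
    (hE : E ≤ 2 * 4 * (N - M)) (hM : (k : ℝ) - 1 + (1 / 2 * k - 1) * 4 ≤ M) :
    ∑ h ∈ range (k + 1), (w.choose h : ℝ) * c (k - h) ≤ (N + w) * c (k - 1) := by
  have hkr : (5 : ℝ) ≤ k := by exact_mod_cast hk
  obtain ⟨a, ha⟩ : ∃ a : ℝ, (k : ℝ) = 5 + a := ⟨k - 5, by ring⟩
  have ha0 : 0 ≤ a := by linarith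
  have key : ∀ κ : ℝ, 0 ≤ κ → 8 * 4 * κ * ((k : ℝ) - 1 + (1 / 2 * k - 1) * 4) ≤
      8 * 4 * κ * M := by
    intro κ hκ
    exact mul_le_mul_of_nonneg_left hM (by positivity)
  refine reg1 k w 4 N E M (15 / 4 * (k * (k - 2))) c (3 / 5 * k + 4) ((k - 3) / 4)
    (5 / 8 * (k - 2)) 2 1 H
    (by omega) (by push_cast; exact hE) ?_ (by linarith) (by norm_num) le_rfl
    ?_ ?_ ?_ ?_ ?_ ?_ ?_
  · nlinarith
  · push_cast
    refine le_trans ?_ (key _ (by linarith))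
    rw [ha]
    nlinarith [mul_nonneg ha0 ha0]
  · refine r1a N 4 _ M E _ H.hN (by linarith) hE ?_
    refine le_trans ?_ (key _ (by linarith))
    rw [ha]
    nlinarith [mul_nonneg ha0 ha0]
  · intro _
    refine r1a N 4 _ M E _ H.hN (by linarith) hE ?_
    refine le_trans ?_ (key _ (by linarith))
    rw [ha]
    nlinarith [mul_nonneg ha0 ha0]
  · push_cast
    nlinarith
  · intro _
    push_cast
    rw [ha]
    nlinarith [mul_nonneg ha0 ha0]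
  · intro _ _
    push_cast
    rw [ha]
    nlinarith [mul_nonneg ha0 ha0]
  · intro _ h; omega

/-- region 1, `d = 3` -/
lemma reg1_d3 (k w : ℕ) (N E M : ℝ) (c : ℕ → ℝ) (H : Hyp k w 3 N E c) (hk : 5 ≤ k)
    (hE : E ≤ 2 * 3 * (N - M)) (hM : (k : ℝ) - 1 + (1 / 2 * k - 1) * 3 ≤ M) :
    ∑ h ∈ range (k + 1), (w.choose h : ℝ) * c (k - h) ≤ (N + w) * c (k - 1) := by
  have hkr : (5 : ℝ) ≤ k := by exact_mod_cast hk
  obtain ⟨a, ha⟩ : ∃ a : ℝ, (k : ℝ) = 5 + a := ⟨k - 5, by ring⟩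
  have ha0 : 0 ≤ a := by linarith
  have key : ∀ κ : ℝ, 0 ≤ κ → 8 * 3 * κ * ((k : ℝ) - 1 + (1 / 2 * k - 1) * 3) ≤
      8 * 3 * κ * M := by
    intro κ hκ
    exact mul_le_mul_of_nonneg_left hM (by positivity)
  refine reg1 k w 3 N E M (11 / 4 * (k * (k - 2))) c (k / 2) 0
    (11 / 12 * (k - 2)) 1 1 H
    (by omega) (by push_cast; exact hE) ?_ (by linarith) le_rfl le_rfl
    ?_ ?_ ?_ ?_ ?_ ?_ ?_
  · nlinarith
  · push_cast
    refine le_trans ?_ (key _ (by linarith))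
    rw [ha]
    nlinarith [mul_nonneg ha0 ha0]
  · refine r1a N 3 _ M E _ H.hN (by linarith) hE ?_
    refine le_trans ?_ (key _ (by linarith))
    rw [ha]
    nlinarith [mul_nonneg ha0 ha0]
  · intro _
    refine r1a N 3 _ M E _ H.hN (by linarith) hE ?_
    refine le_trans ?_ (key _ (by linarith))
    rw [ha]
    nlinarith [mul_nonneg ha0 ha0]
  · push_cast
    nlinarith
  · intro _
    push_cast
    rw [ha]
    nlinarith [mul_nonneg ha0 ha0]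
  · intro _ h; omega
  · intro _ h; omega

end Pool.Agent.Lib.MP_99e3ed_co.H98
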