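import Pool.Agent.Lib.MP_99e3ed_co.H98.ZBig
import Pool.Agent.Lib.MP_99e3ed_co.H98.ZSmall

/-!
Ratio form of Kahn's conjecture: the module `ZCount` (the two real modules of (Z), for the
enlarged regions).
-/

set_option autoImplicit false

open Finset
open Pool.Agent.Lib.MP_99e3ed_co.Ratio

namespace Pool.Agent.Lib.MP_99e3ed_co.H98

/-- the region in which (Z) is proved (constants agreed with helper59) -/
def ZRegB (d k n s : ℕ) : Prop :=
  (k = 3 ∧ (5 * (k * d) + 6 * k ≤ 6 * n ∨ 100 * (k * d) + 73 * k ≤ 73 * (n + s))) ∨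
  (k = 4 ∧ (100 * (k * d) + 139 * k ≤ 139 * n ∨ 100 * (k * d) + 74 * k ≤ 74 * (n + s))) ∨
  (k = 5 ∧ 6 ≤ d ∧ (20 * (k * d) + 31 * k ≤ 31 * n ∨ 100 * (k * d) + 83 * k ≤ 83 * (n + s))) ∨
  (6 ≤ k ∧ 6 ≤ d ∧ (5 * (k * d) + 8 * k ≤ 8 * n ∨ 100 * (k * d) + 83 * k ≤ 83 * (n + s))) ∨
  (5 ≤ k ∧ d ≤ 5 ∧ (k * d + 2 * k ≤ 2 * n ∨ 10 * (k * d) + 9 * k ≤ 9 * (n + s)))

/-- from the region and the recursive estimates to the (Z) step -/
def ZCount : Prop := ∀ (d k n s i w N : ℕ) (E : ℝ) (c : ℕ → ℝ), 3 ≤ d → 3 ≤ k → 1 ≤ i → i < d →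
  2 ≤ w → w ≤ d → N + i + w = n + s → 0 ≤ E → E ≤ N * d →
  E ≤ 2 * (d * ((s : ℝ) + 1)) - 2 * (i * w) →
  (ZRegB d k n s ∨ (4 ≤ k ∧ (k - 1) * d ≤ s ∧ s < n)) →
  (∀ t, 0 ≤ c t) → (k : ℝ) * c k ≤ (N - k + 1) * c (k - 1) →
  (∀ t, 1 ≤ t → t ≤ k - 1 → ((N : ℝ) - (t - 1) * (1 + E / N)) * c (t - 1) ≤ t * c t) →
  0 < N ∧ ∑ h ∈ range (k + 1), (w.choose h : ℝ) * c (k - h) ≤ (N + w) * c (k - 1)

theorem zcount : ZCount := by
  intro d k n s i w N E c hd hk hi hid hw2 hwd hN hE0 hE1 hE2 hreg hc h0 h1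
  have hdr : (3 : ℝ) ≤ d := by exact_mod_cast hd
  have hkr : (3 : ℝ) ≤ k := by exact_mod_cast hk
  have hwr : (w : ℝ) ≤ d := by exact_mod_cast hwd
  have hw2r : (2 : ℝ) ≤ w := by exact_mod_cast hw2
  have hir : (i : ℝ) + 1 ≤ d := by exact_mod_cast hid
  have hir1 : (1 : ℝ) ≤ i := by exact_mod_cast hi
  have hNr : (N : ℝ) + i + w = n + s := by exact_mod_cast hN
  -- `N ≥ n + s - 2 d + 1`
  have hNlow : (n : ℝ) + s - 2 * d + 1 ≤ N := by linarith
  -- `E ≤ 2 d (N - (n - d - 1))`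
  have hEM : E ≤ 2 * d * ((N : ℝ) - ((n : ℝ) - d - 1)) := by
    have : 0 ≤ ((d : ℝ) - i) * ((d : ℝ) - w) := mul_nonneg (by linarith) (by linarith)
    nlinarith
  have hNM : (n : ℝ) - d - 1 ≤ N := by
    by_contra h
    push Not at h
    nlinarith
  have hs0 : (0 : ℝ) ≤ s := Nat.cast_nonneg _
  have mk : ∀ h : (0 : ℝ) < N, Hyp k w d N E c := fun h => ⟨hwd, hw2, h, hE0, hc, h0, h1⟩
  -- region 2 for `k ≥ 5`
  have two5 : 5 ≤ k → 100 * ((k : ℝ) * d) + 83 * k ≤ 83 * (n + s) →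
      0 < N ∧ ∑ h ∈ range (k + 1), (w.choose h : ℝ) * c (k - h) ≤ (N + w) * c (k - 1) := by
    intro h5 hr
    have h5r : (5 : ℝ) ≤ k := by exact_mod_cast h5
    have hlow : (k : ℝ) + 100 / 83 * (k * d) - 2 * d + 1 ≤ N := by linarith
    have hpos : (0 : ℝ) < N := by nlinarith
    exact ⟨by exact_mod_cast hpos, reg2_k5 k w d N E c (mk hpos) h5 hd hE1 hlow⟩
  rcases hreg with hreg | ⟨h4, hs1, hs2⟩
  · rcases hreg with ⟨rfl, hr⟩ | ⟨rfl, hr⟩ | ⟨rfl, hd6, hr⟩ | ⟨hk6, hd6, hr⟩ | ⟨hk5, hd5, hr⟩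
    · rcases hr with hr | hr
      · have hr' : 5 * (3 * (d : ℝ)) + 6 * 3 ≤ 6 * n := by exact_mod_cast hr
        have hpos : (0 : ℝ) < N := by linarith
        exact ⟨by exact_mod_cast hpos, reg1_k3 w d N E _ c (mk hpos) hd hEM (by linarith)⟩
      · have hr' : 100 * (3 * (d : ℝ)) + 73 * 3 ≤ 73 * (n + s) := by exact_mod_cast hr
        have hpos : (0 : ℝ) < N := by linarith
        exact ⟨by exact_mod_cast hpos, reg2_k3 w d N E c (mk hpos) hd hE1 (by linarith)⟩
    · rcases hr with hr | hr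
      · have hr' : 100 * (4 * (d : ℝ)) + 139 * 4 ≤ 139 * n := by exact_mod_cast hr
        have hpos : (0 : ℝ) < N := by linarith
        exact ⟨by exact_mod_cast hpos, reg1_k4 w d N E _ c (mk hpos) hd hEM (by linarith)⟩
      · have hr' : 100 * (4 * (d : ℝ)) + 74 * 4 ≤ 74 * (n + s) := by exact_mod_cast hr
        have hpos : (0 : ℝ) < N := by linarith
        exact ⟨by exact_mod_cast hpos, reg2_k4 w d N E c (mk hpos) hd hE1 (by linarith)⟩
    · rcases hr with hr | hr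
      · have hr' : 20 * (5 * (d : ℝ)) + 31 * 5 ≤ 31 * n := by exact_mod_cast hr
        have hpos : (0 : ℝ) < N := by linarith
        exact ⟨by exact_mod_cast hpos, reg1_k5 w d N E _ c (mk hpos) hd hEM (by linarith)⟩
      · exact two5 le_rfl (by exact_mod_cast hr)
    · have h6r : (6 : ℝ) ≤ k := by exact_mod_cast hk6
      rcases hr with hr | hr
      · have hr' : 5 * ((k : ℝ) * (d : ℝ)) + 8 * k ≤ 8 * n := by exact_mod_cast hr
        have hpos : (0 : ℝ) < N := by nlinarith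
        exact ⟨by exact_mod_cast hpos, reg1_k6 k w d N E _ c (mk hpos) hk6 hd hEM (by linarith)⟩
      · exact two5 (by omega) (by exact_mod_cast hr)
    · have h5r : (5 : ℝ) ≤ k := by exact_mod_cast hk5
      have hcase : d = 3 ∨ d = 4 ∨ d = 5 := by omega
      rcases hr with hr | hr
      · have hr' : (k : ℝ) * (d : ℝ) + 2 * k ≤ 2 * n := by exact_mod_cast hr
        have hpos : (0 : ℝ) < N := by nlinarith
        refine ⟨by exact_mod_cast hpos, ?_⟩
        have H := mk hpos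
        rcases hcase with rfl | rfl | rfl
        · push_cast at hEM hr'
          exact reg1_d3 k w N E _ c H hk5 hEM (by linarith)
        · push_cast at hEM hr'
          exact reg1_d4 k w N E _ c H hk5 hEM (by linarith)
        · push_cast at hEM hr'
          exact reg1_d5 k w N E _ c H hk5 hEM (by linarith)
      · have hr' : 10 * ((k : ℝ) * (d : ℝ)) + 9 * k ≤ 9 * (n + s) := by exact_mod_cast hr
        have hpos : (0 : ℝ) < N := by nlinarith
        refine ⟨by exact_mod_cast hpos, ?_⟩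
        have H := mk hpos
        rcases hcase with rfl | rfl | rfl
        · push_cast at hE1 hr' hNlow
          exact reg2_d3 k w N E c H hk5 hE1 (by linarith)
        · push_cast at hE1 hr' hNlow
          exact reg2_d4 k w N E c H hk5 hE1 (by linarith)
        · push_cast at hE1 hr' hNlow
          exact reg2_d5 k w N E c H hk5 hE1 (by linarith)
  · -- kind `A`
    have hs1r : ((k : ℝ) - 1) * d ≤ s := by
      have : (((k - 1) * d : ℕ) : ℝ) ≤ s := by exact_mod_cast hs1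
      rw [Nat.cast_mul, Nat.cast_sub (by omega)] at this
      push_cast at this
      exact this
    have hs2r : (s : ℝ) + 1 ≤ n := by exact_mod_cast hs2
    rcases Nat.lt_or_ge k 5 with h5 | h5
    · have : k = 4 := by omega
      subst this
      push_cast at hs1r
      have hpos : (0 : ℝ) < N := by linarith
      exact ⟨by exact_mod_cast hpos, regA_k4 w d N E c (mk hpos) hd hE1 (by linarith)⟩
    · have h5r : (5 : ℝ) ≤ k := by exact_mod_cast h5
      refine two5 h5 ?_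
      nlinarith [mul_nonneg (sub_nonneg.2 h5r) (sub_nonneg.2 hdr)]

end Pool.Agent.Lib.MP_99e3ed_co.H98
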