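import Pool.Agent.Lib.MP_99e3ed_co.H59.Defs

/-!
(F-B): the modules ABh, ABc, ABe.
-/

set_option autoImplicit false

open Finset
open Pool.Agent.Lib.MP_99e3ed_co.Ratio
open Pool.Agent.Lib.MP_99e3ed_co.H59

namespace Pool.Agent.Lib.MP_99e3ed_co.H98

lemma aa_prod (d k m : ℕ) (h : k + d ≤ m) :
    aa d k m = ∏ i ∈ range k, (((m : ℝ) - d - i) / ((m : ℝ) - i)) := by
  have h1 : ((m.descFactorial k : ℕ) : ℝ) = ∏ i ∈ range k, ((m : ℝ) - i) := by
    rw [Nat.descFactorial_eq_prod_range, Nat.cast_prod]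
    refine Finset.prod_congr rfl fun i hi => ?_
    rw [Finset.mem_range] at hi
    rw [Nat.cast_sub (by omega)]
  have h2 : (((m - d).descFactorial k : ℕ) : ℝ) = ∏ i ∈ range k, ((m : ℝ) - d - i) := by
    rw [Nat.descFactorial_eq_prod_range, Nat.cast_prod]
    refine Finset.prod_congr rfl fun i hi => ?_
    rw [Finset.mem_range] at hi
    rw [Nat.cast_sub (by omega), Nat.cast_sub (by omega)]
  rw [Finset.prod_div_distrib, ← h1, ← h2, Nat.descFactorial_eq_factorial_mul_choose,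
    Nat.descFactorial_eq_factorial_mul_choose, Nat.cast_mul, Nat.cast_mul]
  unfold aa
  have : ((k.factorial : ℕ) : ℝ) ≠ 0 := by exact_mod_cast Nat.factorial_ne_zero k
  rw [mul_div_mul_left _ _ this]

lemma aa_prod' (d k m : ℕ) (hk : 1 ≤ k) (h : k + d ≤ m) :
    aa d k m * m / ((m : ℝ) - d) = ∏ i ∈ Finset.Ico 1 k, (((m : ℝ) - d - i) / ((m : ℝ) - i)) := by
  rw [aa_prod d k m h, Finset.range_eq_Ico, Finset.prod_eq_prod_Ico_succ_bot (by omega)]
  have hm : (0 : ℝ) < m := by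
    have : 0 < m := by omega
    exact_mod_cast this
  have hmd : (0 : ℝ) < (m : ℝ) - d := by
    have : d < m := by omega
    have : (d : ℝ) < m := by exact_mod_cast this
    linarith
  simp only [Nat.cast_zero, sub_zero]
  field_simp

theorem abh : ABh := by
  intro d k m hd hk h
  rw [aa_prod' d k m (by omega) h]
  have hkd : (k : ℝ) + d ≤ m := by exact_mod_cast h
  have hdr : (1 : ℝ) ≤ d := by exact_mod_cast hd
  have hkr : (2 : ℝ) ≤ k := by exact_mod_cast hk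
  set x : ℝ := (m : ℝ) - k / 2 with hx
  have hxd : (d : ℝ) + 1 ≤ x := by rw [hx]; linarith
  have hx0 : 0 < x := by linarith
  set P : ℝ := ∏ i ∈ Finset.Ico 1 k, (((m : ℝ) - d - i) / ((m : ℝ) - i)) with hP
  have hterm : ∀ i ∈ Finset.Ico 1 k, 0 ≤ ((m : ℝ) - d - i) / ((m : ℝ) - i) := by
    intro i hi
    rw [Finset.mem_Ico] at hi
    have : (i : ℝ) + 1 ≤ k := by exact_mod_cast hi.2
    exact div_nonneg (by linarith) (by linarith)
  have hP0 : 0 ≤ P := Finset.prod_nonneg hterm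
  have hQ : P = ∏ i ∈ Finset.Ico 1 k, (((m : ℝ) - d - (k - i)) / ((m : ℝ) - (k - i))) := by
    rw [hP]
    refine Finset.prod_nbij' (fun i => k - i) (fun i => k - i) ?_ ?_ ?_ ?_ ?_
    · intro i hi
      rw [Finset.mem_Ico] at hi ⊢
      omega
    · intro i hi
      rw [Finset.mem_Ico] at hi ⊢
      omega
    · intro i hi
      rw [Finset.mem_Ico] at hi
      show k - (k - i) = i
      omega
    · intro i hi
      rw [Finset.mem_Ico] at hi
      show k - (k - i) = i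
      omega
    · intro i hi
      rw [Finset.mem_Ico] at hi
      rw [Nat.cast_sub (by omega)]
      have : (k : ℝ) - (k - i) = i := by ring
      rw [this]
  have hsq : P ^ 2 ≤ ((1 - d / x) ^ (k - 1)) ^ 2 := by
    have e1 : P ^ 2 = ∏ i ∈ Finset.Ico 1 k, ((((m : ℝ) - d - i) / ((m : ℝ) - i)) *
        (((m : ℝ) - d - (k - i)) / ((m : ℝ) - (k - i)))) := by
      rw [Finset.prod_mul_distrib, ← hQ, ← hP, sq]
    have e2 : ((1 - d / x) ^ (k - 1)) ^ 2 = ∏ _i ∈ Finset.Ico 1 k, (1 - d / x) ^ 2 := by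
      rw [Finset.prod_const, Nat.card_Ico, ← pow_mul, ← pow_mul, mul_comm]
    rw [e1, e2]
    refine Finset.prod_le_prod ?_ ?_
    · intro i hi
      refine mul_nonneg (hterm i hi) ?_
      rw [Finset.mem_Ico] at hi
      have h1 : (1 : ℝ) ≤ i := by exact_mod_cast hi.1
      have h2 : (i : ℝ) + 1 ≤ k := by exact_mod_cast hi.2
      exact div_nonneg (by linarith) (by linarith)
    · intro i hi
      rw [Finset.mem_Ico] at hi
      have h1 : (1 : ℝ) ≤ i := by exact_mod_cast hi.1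
      have h2 : (i : ℝ) + 1 ≤ k := by exact_mod_cast hi.2
      have hmi : (0 : ℝ) < (m : ℝ) - i := by linarith
      have hmk : (0 : ℝ) < (m : ℝ) - (k - i) := by linarith
      have e3 : (1 : ℝ) - d / x = (x - d) / x := by
        field_simp
      rw [e3, div_mul_div_comm, div_pow, div_le_div_iff₀ (mul_pos hmi hmk) (by positivity)]
      -- `((x-d)^2 - e^2) x^2 ≤ (x-d)^2 (x^2 - e^2)`, `e = k/2 - i`
      set e : ℝ := (k : ℝ) / 2 - i with he
      have a1 : (m : ℝ) - i = x + e := by rw [hx, he]; ring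
      have a2 : (m : ℝ) - (k - i) = x - e := by rw [hx, he]; ring
      have a3 : (m : ℝ) - d - i = (x - d) + e := by rw [hx, he]; ring
      have a4 : (m : ℝ) - d - (k - i) = (x - d) - e := by rw [hx, he]; ring
      rw [a1, a2, a3, a4]
      have hsqx : (x - d) ^ 2 ≤ x ^ 2 := by nlinarith
      nlinarith [mul_nonneg (sq_nonneg e) (sub_nonneg.2 hsqx)]
  have hR0 : 0 ≤ (1 - d / x) ^ (k - 1) := by
    refine pow_nonneg ?_ _
    rw [sub_nonneg, div_le_one hx0]
    linarith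
  exact (pow_le_pow_iff_left₀ hP0 hR0 (by norm_num)).1 hsq

/-! ### step in `m` -/

lemma aa_succ (d k m : ℕ) (h : k + d ≤ m) :
    aa d k (m + 1) * (((m : ℝ) + 1 - d - k) * (m + 1)) =
      aa d k m * (((m : ℝ) + 1 - d) * (m + 1 - k)) := by
  have h1 : ((m + 1).choose k : ℝ) * ((m : ℝ) + 1 - k) = (m.choose k : ℝ) * (m + 1) := by
    have := Nat.choose_mul_succ_eq m k
    have h2 : ((m.choose k * (m + 1) : ℕ) : ℝ) = (((m + 1).choose k * (m + 1 - k) : ℕ) : ℝ) := by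
      rw [this]
    rw [Nat.cast_mul, Nat.cast_mul, Nat.cast_sub (by omega)] at h2
    push_cast at h2
    linarith
  have h3 : ((m - d + 1).choose k : ℝ) * ((m : ℝ) - d + 1 - k) =
      ((m - d).choose k : ℝ) * (m - d + 1) := by
    have := Nat.choose_mul_succ_eq (m - d) k
    have h2 : (((m - d).choose k * (m - d + 1) : ℕ) : ℝ) =
        (((m - d + 1).choose k * (m - d + 1 - k) : ℕ) : ℝ) := by
      rw [this]
    rw [Nat.cast_mul, Nat.cast_mul, Nat.cast_sub (by omega)] at h2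
    push_cast at h2
    rw [Nat.cast_sub (by omega)] at h2
    linarith
  have e1 : m + 1 - d = m - d + 1 := by omega
  unfold aa
  rw [e1]
  have p1 : (0 : ℝ) < (m.choose k : ℝ) := by exact_mod_cast Nat.choose_pos (by omega)
  have p2 : (0 : ℝ) < ((m + 1).choose k : ℝ) := by exact_mod_cast Nat.choose_pos (by omega)
  field_simp
  have hm : (0 : ℝ) < (m : ℝ) + 1 - k := by
    have : (k : ℝ) ≤ m := by
      have : k ≤ m := by omega
      exact_mod_cast this
    linarith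
  calc _ = (((m - d + 1).choose k : ℝ) * ((m : ℝ) - d + 1 - k)) * ((m.choose k : ℝ) * (m + 1)) := by
        ring
    _ = (((m - d).choose k : ℝ) * (m - d + 1)) * (((m + 1).choose k : ℝ) * ((m : ℝ) + 1 - k)) := by
        rw [h3, h1]
    _ = _ := by ring

lemma aa_nonneg (d k m : ℕ) : 0 ≤ aa d k m := by
  unfold aa
  positivity

/-- the quantity of ABc is nondecreasing below `k(d+1)/2` -/
lemma cm_step (d k m : ℕ) (hd : 1 ≤ d) (hk : 1 ≤ k) (h : k + d ≤ m) (h2 : 2 * m < k * (d + 1)) :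
    aa d k m / (((m : ℝ) - d) * (m - k)) ≤
      aa d k (m + 1) / ((((m + 1 : ℕ) : ℝ) - d) * (((m + 1 : ℕ) : ℝ) - k)) := by
  have hs := aa_succ d k m h
  have hkd : (k : ℝ) + d ≤ m := by exact_mod_cast h
  have hdr : (1 : ℝ) ≤ d := by exact_mod_cast hd
  have hkr : (1 : ℝ) ≤ k := by exact_mod_cast hk
  have h2r : 2 * (m : ℝ) + 1 ≤ k * (d + 1) := by exact_mod_cast h2
  have ha := aa_nonneg d k m
  have e : aa d k (m + 1) = aa d k m * (((m : ℝ) + 1 - d) * (m + 1 - k)) /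
      (((m : ℝ) + 1 - d - k) * (m + 1)) := by
    rw [eq_div_iff, hs]
    exact mul_ne_zero (by linarith) (by linarith)
  rw [e]
  push_cast
  have q1 : (0 : ℝ) < (m : ℝ) + 1 - d := by linarith
  have q2 : (0 : ℝ) < (m : ℝ) + 1 - k := by linarith
  have q3 : (0 : ℝ) < (m : ℝ) + 1 - d - k := by linarith
  have q4 : (0 : ℝ) < (m : ℝ) + 1 := by linarith
  have q5 : (0 : ℝ) < (m : ℝ) - d := by linarith
  have q6 : (0 : ℝ) < (m : ℝ) - k := by linarith
  have e2 : aa d k m * (((m : ℝ) + 1 - d) * (m + 1 - k)) / (((m : ℝ) + 1 - d - k) * (m + 1)) /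
      (((m : ℝ) + 1 - d) * (m + 1 - k)) = aa d k m / (((m : ℝ) + 1 - d - k) * (m + 1)) := by
    field_simp
  rw [e2]
  refine div_le_div_of_nonneg_left ha (by positivity) ?_
  nlinarith

/-- the quantity of ABe is nondecreasing below `k(d+1)/2` -/
lemma em_step (d k m : ℕ) (hd : 1 ≤ d) (hk : 1 ≤ k) (h : k + d ≤ m) (h2 : 2 * m < k * (d + 1)) :
    aa d k m * m / (((m : ℝ) - d) ^ 2 * (m - k)) ≤
      aa d k (m + 1) * ((m + 1 : ℕ) : ℝ) /
        ((((m + 1 : ℕ) : ℝ) - d) ^ 2 * (((m + 1 : ℕ) : ℝ) - k)) := by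
  have hs := aa_succ d k m h
  have hkd : (k : ℝ) + d ≤ m := by exact_mod_cast h
  have hdr : (1 : ℝ) ≤ d := by exact_mod_cast hd
  have hkr : (1 : ℝ) ≤ k := by exact_mod_cast hk
  have h2r : 2 * (m : ℝ) + 1 ≤ k * (d + 1) := by exact_mod_cast h2
  have ha := aa_nonneg d k m
  have e : aa d k (m + 1) = aa d k m * (((m : ℝ) + 1 - d) * (m + 1 - k)) /
      (((m : ℝ) + 1 - d - k) * (m + 1)) := by
    rw [eq_div_iff, hs]
    exact mul_ne_zero (by linarith) (by linarith)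
  rw [e]
  push_cast
  have q1 : (0 : ℝ) < (m : ℝ) + 1 - d := by linarith
  have q2 : (0 : ℝ) < (m : ℝ) + 1 - k := by linarith
  have q3 : (0 : ℝ) < (m : ℝ) + 1 - d - k := by linarith
  have q4 : (0 : ℝ) < (m : ℝ) + 1 := by linarith
  have q5 : (0 : ℝ) < (m : ℝ) - d := by linarith
  have q6 : (0 : ℝ) < (m : ℝ) - k := by linarith
  have q7 : (0 : ℝ) < (m : ℝ) := by linarith
  have e2 : aa d k m * (((m : ℝ) + 1 - d) * (m + 1 - k)) / (((m : ℝ) + 1 - d - k) * (m + 1)) *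
      (m + 1) / (((m : ℝ) + 1 - d) ^ 2 * (m + 1 - k)) =
      aa d k m / (((m : ℝ) + 1 - d - k) * (m + 1 - d)) := by
    field_simp
  have e3 : aa d k m * m / (((m : ℝ) - d) ^ 2 * (m - k)) =
      aa d k m / (((m : ℝ) - d) ^ 2 * (m - k) / m) := by
    field_simp
  rw [e2, e3]
  refine div_le_div_of_nonneg_left ha (by positivity) ?_
  rw [le_div_iff₀ q7]
  -- A = m - d
  obtain ⟨A, hA⟩ : ∃ A : ℝ, (m : ℝ) = A + d := ⟨m - d, by ring⟩
  have hA0 : (0 : ℝ) ≤ A := by linarith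
  rw [hA] at h2r ⊢
  have key : 0 ≤ A * (k * (d + 1) - 2 * d - 1 - 2 * A) + d * (k - 1) := by
    have : 0 ≤ (k : ℝ) * (d + 1) - 2 * d - 1 - 2 * A := by linarith
    have h3 : (0 : ℝ) ≤ d * (k - 1) := mul_nonneg (by linarith) (by linarith)
    have h4 := mul_nonneg hA0 this
    linarith
  nlinarith [key]

/-! ### the bounds for `2 m ≥ k (d+1)` -/

lemma amgm_exp (k : ℕ) (t t' : ℝ) (ht : 0 ≤ t) (ht' : 0 ≤ t')
    (h : 2 * (t - 1) + k * (t' - 1) = 0) : t ^ 2 * t' ^ k ≤ 1 := by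
  have h1 : t ≤ Real.exp (t - 1) := by linarith [Real.add_one_le_exp (t - 1)]
  have h2 : t' ≤ Real.exp (t' - 1) := by linarith [Real.add_one_le_exp (t' - 1)]
  calc t ^ 2 * t' ^ k ≤ Real.exp (t - 1) ^ 2 * Real.exp (t' - 1) ^ k := by gcongr
    _ = Real.exp (2 * (t - 1) + k * (t' - 1)) := by
        rw [← Real.exp_nat_mul, ← Real.exp_nat_mul, ← Real.exp_add]
        push_cast
        ring_nf
    _ = 1 := by rw [h, Real.exp_zero]

/-- `v² (1 - v/k)^(k-1) ≤ 4 (k/(k+1))² ((k-1)/(k+1))^(k-1)` -/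
lemma vbound (k : ℕ) (hk : 2 ≤ k) (v : ℝ) (hv : 0 ≤ v) (hvk : v ≤ k) :
    v ^ 2 * (1 - v / k) ^ (k - 1) ≤
      4 * ((k : ℝ) / (k + 1)) ^ 2 * (((k : ℝ) - 1) / (k + 1)) ^ (k - 1) := by
  have hkr : (2 : ℝ) ≤ k := by exact_mod_cast hk
  have hk0 : (0 : ℝ) < k := by linarith
  have hk1 : (0 : ℝ) < (k : ℝ) - 1 := by linarith
  have hk2 : (0 : ℝ) < (k : ℝ) + 1 := by linarith
  have h1 : 0 ≤ 1 - v / k := by
    rw [sub_nonneg, div_le_one hk0]
    exact hvk
  have e1 : (((k - 1 : ℕ) : ℕ) : ℝ) = (k : ℝ) - 1 := by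
    rw [Nat.cast_sub (by omega), Nat.cast_one]
  have := amgm_exp (k - 1) (v * (k + 1) / (2 * k)) ((1 - v / k) * (k + 1) / (k - 1))
    (by positivity) (by positivity) (by
      rw [e1]
      field_simp
      ring)
  have e2 : v ^ 2 * (1 - v / k) ^ (k - 1) =
      (4 * ((k : ℝ) / (k + 1)) ^ 2 * (((k : ℝ) - 1) / (k + 1)) ^ (k - 1)) *
      ((v * (k + 1) / (2 * k)) ^ 2 * ((1 - v / k) * (k + 1) / (k - 1)) ^ (k - 1)) := by
    have e3 : (((k : ℝ) - 1) / (k + 1)) ^ (k - 1) * ((1 - v / k) * (k + 1) / (k - 1)) ^ (k - 1) =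
        (1 - v / k) ^ (k - 1) := by
      rw [← mul_pow]
      congr 1
      field_simp
    have e4 : v ^ 2 = 4 * ((k : ℝ) / (k + 1)) ^ 2 * (v * (k + 1) / (2 * k)) ^ 2 := by
      field_simp
      ring
    rw [← e3]
    rw [e4]
    ring
  rw [e2]
  refine mul_le_of_le_one_right ?_ this
  positivity

/-- `v² (1 - v/k)^(k-2) ≤ 4 (1-2/k)^(k-2)` -/
lemma vbound2 (k : ℕ) (hk : 3 ≤ k) (v : ℝ) (hv : 0 ≤ v) (hvk : v ≤ k) :
    v ^ 2 * (1 - v / k) ^ (k - 2) ≤ 4 * (1 - 2 / (k : ℝ)) ^ (k - 2) := by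
  have hkr : (3 : ℝ) ≤ k := by exact_mod_cast hk
  have hk0 : (0 : ℝ) < k := by linarith
  have hk1 : (0 : ℝ) < (k : ℝ) - 2 := by linarith
  have h1 : 0 ≤ 1 - v / k := by
    rw [sub_nonneg, div_le_one hk0]
    exact hvk
  have e1 : (((k - 2 : ℕ) : ℕ) : ℝ) = (k : ℝ) - 2 := by
    rw [Nat.cast_sub (by omega), Nat.cast_ofNat]
  have := amgm_exp (k - 2) (v / 2) ((1 - v / k) * k / (k - 2))
    (by positivity) (by positivity) (by
      rw [e1]
      field_simp
      ring)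
  have e2 : v ^ 2 * (1 - v / k) ^ (k - 2) =
      (4 * (1 - 2 / (k : ℝ)) ^ (k - 2)) *
      ((v / 2) ^ 2 * ((1 - v / k) * k / (k - 2)) ^ (k - 2)) := by
    have e3 : (1 - 2 / (k : ℝ)) ^ (k - 2) * ((1 - v / k) * k / (k - 2)) ^ (k - 2) =
        (1 - v / k) ^ (k - 2) := by
      rw [← mul_pow]
      congr 1
      field_simp
    rw [← e3]
    ring
  rw [e2]
  refine mul_le_of_le_one_right ?_ this
  have : 0 ≤ 1 - 2 / (k : ℝ) := by
    rw [sub_nonneg, div_le_one hk0]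
    linarith
  positivity

/-- the numerical constant -/
lemma mk_le (k : ℕ) (hk : 5 ≤ k) :
    4 * ((k : ℝ) / (k + 1)) ^ 2 * (((k : ℝ) - 1) / (k + 1)) ^ (k - 1) ≤ 0.55 := by
  rcases Nat.lt_or_ge k 8 with h8 | h8
  · interval_cases k <;> norm_num
  · have hkr : (8 : ℝ) ≤ k := by exact_mod_cast h8
    have hk0 : (0 : ℝ) < k := by linarith
    set y : ℝ := 1 / k with hy
    have hy0 : 0 < y := by positivity
    have hy8 : y ≤ 1 / 8 := by
      rw [hy]
      exact one_div_le_one_div_of_le (by norm_num) hkr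
    have hky : (k : ℝ) * y = 1 := by rw [hy]; field_simp
    have f1 : ((k : ℝ) - 1) / (k + 1) ≤ Real.exp (-(2 * y)) := by
      have hb := Real.exp_bound' (x := 2 * y) (by linarith) (by linarith) (n := 3) (by norm_num)
      norm_num [Finset.sum_range_succ, Nat.factorial] at hb
      have e : ((k : ℝ) - 1) / (k + 1) = (1 - y) / (1 + y) := by
        rw [hy]
        field_simp
      rw [e, Real.exp_neg, div_le_iff₀ (by linarith), inv_mul_eq_div, le_div_iff₀ (Real.exp_pos _)]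
      have hb2 : (1 - y) * Real.exp (2 * y) ≤
          (1 - y) * (1 + 2 * y + (2 * y) ^ 2 / 2 + (2 * y) ^ 3 * 4 / (6 * 3)) := by
        refine mul_le_mul_of_nonneg_left ?_ (by linarith)
        linarith
      nlinarith [pow_pos hy0 3, pow_pos hy0 4]
    have f2 : (k : ℝ) / (k + 1) ≤ Real.exp (-(y - y ^ 2 / 2)) := by
      have hz0 : 0 ≤ y - y ^ 2 / 2 := by nlinarith
      have hb := Real.exp_bound' (x := y - y ^ 2 / 2) hz0 (by nlinarith) (n := 3) (by norm_num)
      norm_num [Finset.sum_range_succ, Nat.factorial] at hb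
      have e : (k : ℝ) / (k + 1) = 1 / (1 + y) := by
        rw [hy]
        field_simp
      rw [e, Real.exp_neg, ← one_div]
      refine one_div_le_one_div_of_le (Real.exp_pos _) ?_
      refine hb.trans ?_
      nlinarith [pow_pos hy0 2, pow_pos hy0 3, pow_pos hy0 4, pow_pos hy0 5, pow_pos hy0 6]
    have h1 : 0 ≤ ((k : ℝ) - 1) / (k + 1) := div_nonneg (by linarith) (by linarith)
    have h2 : 0 ≤ (k : ℝ) / (k + 1) := by positivity
    have e1 : (((k - 1 : ℕ) : ℕ) : ℝ) = (k : ℝ) - 1 := by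
      rw [Nat.cast_sub (by omega), Nat.cast_one]
    calc 4 * ((k : ℝ) / (k + 1)) ^ 2 * (((k : ℝ) - 1) / (k + 1)) ^ (k - 1)
        ≤ 4 * Real.exp (-(y - y ^ 2 / 2)) ^ 2 * Real.exp (-(2 * y)) ^ (k - 1) := by
          gcongr
      _ = 4 * Real.exp (-2 + y ^ 2) := by
          rw [← Real.exp_nat_mul, ← Real.exp_nat_mul, mul_assoc, ← Real.exp_add, e1]
          congr 2
          push_cast
          linear_combination (-2 : ℝ) * hky
      _ ≤ 4 * Real.exp (-2 + 1 / 64) := by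
          have : y ^ 2 ≤ 1 / 64 := by nlinarith
          gcongr
      _ ≤ 0.55 := by
          have g1 : Real.exp (-2 + 1 / 64) = Real.exp (-127 / 64) := by norm_num
          have g2 : Real.exp (-127 / 64) = (Real.exp (127 / 64))⁻¹ := by
            rw [← Real.exp_neg]; norm_num
          rw [g1, g2]
          have g3 : (7.2728 : ℝ) ≤ Real.exp (127 / 64) := by
            have g4 : Real.exp (127 / 64) = Real.exp 1 ^ 2 * Real.exp (-(1 / 64)) := by
              rw [← Real.exp_nat_mul, ← Real.exp_add]; norm_num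
            rw [g4]
            have g5 := Real.exp_one_gt_d9
            have g6 : (1 : ℝ) - 1 / 64 + 1 / 8192 - 1/1000000 ≤ Real.exp (-(1 / 64)) := by
              have := Real.exp_bound (x := -(1 / 64)) (by norm_num) (n := 3) (by norm_num)
              norm_num [Finset.sum_range_succ, Nat.factorial, abs_le] at this
              linarith [this.1]
            nlinarith
          rw [← div_eq_mul_inv, div_le_iff₀ (Real.exp_pos _)]
          linarith


/-- the two estimates for `2 m ≥ k (d+1)` -/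
lemma big_m (d k m : ℕ) (hd : 3 ≤ d) (hk : 5 ≤ k) (h : k + d ≤ m) (h2 : k * (d + 1) ≤ 2 * m) :
    ((k : ℝ) * d) ^ 2 * (aa d k m / (((m : ℝ) - d) * (m - k))) ≤
        0.55 * ((d : ℝ) ^ 2 / (d ^ 2 - 1)) ∧
    ((k : ℝ) * d) ^ 2 * (aa d k m * m / (((m : ℝ) - d) ^ 2 * (m - k))) ≤
        4 * (1 - 2 / (k : ℝ)) ^ (k - 2) * ((d : ℝ) ^ 2 / (d ^ 2 - 1)) := by
  have hb := abh d k m (by omega) (by omega) h
  have hkd : (k : ℝ) + d ≤ m := by exact_mod_cast h
  have hdr : (3 : ℝ) ≤ d := by exact_mod_cast hd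
  have hkr : (5 : ℝ) ≤ k := by exact_mod_cast hk
  have h2r : (k : ℝ) * (d + 1) ≤ 2 * m := by exact_mod_cast h2
  set x : ℝ := (m : ℝ) - k / 2 with hx
  have hxd : (d : ℝ) + 1 ≤ x := by rw [hx]; linarith
  have hx0 : 0 < x := by linarith
  set v : ℝ := k * d / x with hv
  have hv0 : 0 ≤ v := by positivity
  have hxk : (k : ℝ) * d ≤ 2 * x := by rw [hx]; linarith
  have hv2 : v ≤ 2 := by
    rw [hv, div_le_iff₀ hx0]
    exact hxk
  have hdx : (d : ℝ) / x = v / k := by rw [hv]; field_simp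
  rw [hdx] at hb
  have hvk : 0 ≤ 1 - v / k := by
    rw [sub_nonneg, div_le_one (by linarith)]
    linarith
  have hm0 : (0 : ℝ) < m := by linarith
  have hmd : (0 : ℝ) < (m : ℝ) - d := by linarith
  have hmk : (0 : ℝ) < (m : ℝ) - k := by linarith
  -- `m (m - k) = x² - k²/4`
  have hprod : (m : ℝ) * (m - k) = x ^ 2 - k ^ 2 / 4 := by rw [hx]; ring
  have hxk2 : (k : ℝ) ^ 2 / 4 * d ^ 2 ≤ x ^ 2 := by
    have h3 : (k : ℝ) * d / 2 ≤ x := by linarith
    have h4 : ((k : ℝ) * d / 2) ^ 2 ≤ x ^ 2 := pow_le_pow_left₀ (by positivity) h3 2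
    linarith [h4, (by ring : ((k : ℝ) * d / 2) ^ 2 = (k : ℝ) ^ 2 / 4 * d ^ 2)]
  have hd1 : (0 : ℝ) < (d : ℝ) ^ 2 - 1 := by nlinarith
  -- `(k d)² / (m (m-k)) ≤ v² d²/(d²-1)`
  have hfrac : ((k : ℝ) * d) ^ 2 / (m * (m - k)) ≤ v ^ 2 * ((d : ℝ) ^ 2 / (d ^ 2 - 1)) := by
    rw [hprod]
    have hpos : 0 < x ^ 2 - (k : ℝ) ^ 2 / 4 := by rw [← hprod]; positivity
    have e1 : v ^ 2 * ((d : ℝ) ^ 2 / (d ^ 2 - 1)) = ((k : ℝ) * d) ^ 2 / (x ^ 2 * (d ^ 2 - 1) / d ^ 2) := by
      rw [hv]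
      field_simp
    rw [e1]
    refine div_le_div_of_nonneg_left (by positivity) (by positivity) ?_
    rw [div_le_iff₀ (by positivity)]
    nlinarith
  have ha := aa_nonneg d k m
  have hR : 0 ≤ (d : ℝ) ^ 2 / (d ^ 2 - 1) := by positivity
  constructor
  · have e1 : ((k : ℝ) * d) ^ 2 * (aa d k m / (((m : ℝ) - d) * (m - k))) =
        (((k : ℝ) * d) ^ 2 / (m * (m - k))) * (aa d k m * m / ((m : ℝ) - d)) := by
      field_simp
    rw [e1]
    calc (((k : ℝ) * d) ^ 2 / (m * (m - k))) * (aa d k m * m / ((m : ℝ) - d))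
        ≤ (v ^ 2 * ((d : ℝ) ^ 2 / (d ^ 2 - 1))) * (1 - v / k) ^ (k - 1) := by
          refine mul_le_mul hfrac hb ?_ ?_
          · positivity
          · positivity
      _ = (v ^ 2 * (1 - v / k) ^ (k - 1)) * ((d : ℝ) ^ 2 / (d ^ 2 - 1)) := by ring
      _ ≤ 0.55 * ((d : ℝ) ^ 2 / (d ^ 2 - 1)) := by
          refine mul_le_mul_of_nonneg_right ?_ hR
          exact (vbound k (by omega) v hv0 (by linarith)).trans (mk_le k hk)
  · have e1 : ((k : ℝ) * d) ^ 2 * (aa d k m * m / (((m : ℝ) - d) ^ 2 * (m - k))) =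
        (((k : ℝ) * d) ^ 2 / (m * (m - k))) * (aa d k m * m / ((m : ℝ) - d)) *
          (m / ((m : ℝ) - d)) := by
      field_simp
    have hvk0 : 0 < 1 - v / k := by
      rw [sub_pos, div_lt_one (by linarith)]
      linarith
    have hmd2 : (m : ℝ) / (m - d) ≤ 1 / (1 - v / k) := by
      rw [div_le_div_iff₀ hmd hvk0, ← hdx]
      have : (m : ℝ) * (1 - d / x) = m - m * d / x := by ring
      rw [this, one_mul, sub_le_sub_iff_left, le_div_iff₀ hx0]
      have : x ≤ m := by rw [hx]; linarith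
      nlinarith
    rw [e1]
    calc (((k : ℝ) * d) ^ 2 / (m * (m - k))) * (aa d k m * m / ((m : ℝ) - d)) *
          (m / ((m : ℝ) - d))
        ≤ ((v ^ 2 * ((d : ℝ) ^ 2 / (d ^ 2 - 1))) * (1 - v / k) ^ (k - 1)) *
            (1 / (1 - v / k)) := by
          refine mul_le_mul (mul_le_mul hfrac hb ?_ ?_) hmd2 ?_ ?_
          · positivity
          · positivity
          · positivity
          · positivity
      _ = (v ^ 2 * (1 - v / k) ^ (k - 2)) * ((d : ℝ) ^ 2 / (d ^ 2 - 1)) := by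
          have e2 : (1 - v / k) ^ (k - 1) = (1 - v / k) ^ (k - 2) * (1 - v / k) := by
            rw [← pow_succ]
            congr 1
            omega
          rw [e2]
          have e3 : (1 - v / k) * (1 / (1 - v / k)) = 1 := mul_one_div_cancel hvk0.ne'
          calc _ = v ^ 2 * ((d : ℝ) ^ 2 / (d ^ 2 - 1)) * (1 - v / k) ^ (k - 2) *
                ((1 - v / k) * (1 / (1 - v / k))) := by ring
            _ = _ := by rw [e3]; ring
      _ ≤ 4 * (1 - 2 / (k : ℝ)) ^ (k - 2) * ((d : ℝ) ^ 2 / (d ^ 2 - 1)) := by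
          refine mul_le_mul_of_nonneg_right ?_ hR
          exact vbound2 k (by omega) v hv0 (by linarith)

/-- climbing up to `2 m ≥ k (d+1)` -/
lemma climb (d k : ℕ) (F : ℕ → ℝ) (C : ℝ)
    (hstep : ∀ m, k + d ≤ m → 2 * m < k * (d + 1) → F m ≤ F (m + 1))
    (hbig : ∀ m, k + d ≤ m → k * (d + 1) ≤ 2 * m → F m ≤ C) :
    ∀ r m, k + d ≤ m → k * (d + 1) ≤ 2 * (m + r) → F m ≤ C := by
  intro r
  induction r with
  | zero => intro m h1 h2; exact hbig m h1 (by simpa using h2)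
  | succ r ih =>
    intro m h1 h2
    rcases Nat.lt_or_ge (2 * m) (k * (d + 1)) with h3 | h3
    · exact (hstep m h1 h3).trans (ih (m + 1) (by omega) (by omega))
    · exact hbig m h1 h3

theorem abc : ABc := by
  intro d k m hd hk h
  have := climb d k (fun m => ((k : ℝ) * d) ^ 2 * (aa d k m / (((m : ℝ) - d) * (m - k))))
    (0.55 * ((d : ℝ) ^ 2 / (d ^ 2 - 1)))
    (fun m h1 h2 => mul_le_mul_of_nonneg_left (cm_step d k m (by omega) (by omega) h1 h2)
      (by positivity))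
    (fun m h1 h2 => (big_m d k m hd hk h1 h2).1) (k * (d + 1)) m h (by omega)
  rw [mul_div_assoc]
  exact this

theorem abe : ABe := by
  intro d k m hd hk h
  have := climb d k (fun m => ((k : ℝ) * d) ^ 2 * (aa d k m * m / (((m : ℝ) - d) ^ 2 * (m - k))))
    (4 * (1 - 2 / (k : ℝ)) ^ (k - 2) * ((d : ℝ) ^ 2 / (d ^ 2 - 1)))
    (fun m h1 h2 => mul_le_mul_of_nonneg_left (em_step d k m (by omega) (by omega) h1 h2)
      (by positivity))
    (fun m h1 h2 => (big_m d k m hd hk h1 h2).2) (k * (d + 1)) m h (by omega)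
  rw [mul_assoc, mul_div_assoc]
  exact this

end Pool.Agent.Lib.MP_99e3ed_co.H98
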