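import Pool.Agent.Lib.MP_99e3ed_co.H59.Defs

/-!
(F-B): the module Conc34 (`k = 3, 4`).
-/

set_option autoImplicit false

open Finset
open Pool.Agent.Lib.MP_99e3ed_co.Ratio
open Pool.Agent.Lib.MP_99e3ed_co.H59

namespace Pool.Agent.Lib.MP_99e3ed_co.H98

/-- `T` has at most three terms for `n < k + 3 d` -/
lemma TT_three (d k n : ℕ) (x : ℝ) (hd : 1 ≤ d) (hk : 1 ≤ k) (hn : n < k + 3 * d) :
    TT d k n x = (n.choose k : ℝ) - x / d / 2 * ((n - d).choose k : ℝ) +
      (x / d) * (x / d - 1) / 8 * ((n - 2 * d).choose k : ℝ) := by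
  have hz : ∀ m : ℕ, m < k → ((m.choose k : ℕ) : ℝ) = 0 := by
    intro m hm
    rw [Nat.choose_eq_zero_of_lt hm, Nat.cast_zero]
  have key : TT d k n x = ∑ i ∈ range 3, cc (x / d) i * ((n - d * i).choose k : ℝ) := by
    unfold TT
    have h1 : ∑ i ∈ range (n / d + 1), cc (x / d) i * ((n - d * i).choose k : ℝ) =
        ∑ i ∈ range (n / d + 1 + 3), cc (x / d) i * ((n - d * i).choose k : ℝ) := by
      refine Finset.sum_subset (Finset.range_subset_range.2 (by omega)) ?_
      intro i _ hi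
      rw [Finset.mem_range, not_lt] at hi
      have : n - d * i = 0 := by
        have := Nat.lt_mul_of_div_lt (show n / d < i by omega) (show 0 < d by omega)
        rw [Nat.mul_comm] at this
        omega
      rw [this, hz 0 (by omega), mul_zero]
    have h2 : ∑ i ∈ range 3, cc (x / d) i * ((n - d * i).choose k : ℝ) =
        ∑ i ∈ range (n / d + 1 + 3), cc (x / d) i * ((n - d * i).choose k : ℝ) := by
      refine Finset.sum_subset (Finset.range_subset_range.2 (Nat.le_add_left 3 _)) ?_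
      intro i _ hi
      rw [Finset.mem_range, not_lt] at hi
      have : n - d * i < k := by
        have : d * 3 ≤ d * i := Nat.mul_le_mul_left d hi
        omega
      rw [hz _ this, mul_zero]
    rw [h1, h2]
  rw [key, Finset.sum_range_succ, Finset.sum_range_succ, Finset.sum_range_succ,
    Finset.sum_range_zero]
  have e1 : n - d * 0 = n := by simp
  have e2 : n - d * 1 = n - d := by simp
  have e3 : n - d * 2 = n - 2 * d := by rw [mul_comm]
  rw [e1, e2, e3]
  simp only [cc]
  push_cast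
  ring

/-- the quotient `(A+B) u - 2 B u²` by `1 - (a+b/4) u + (b/2) u²` is convex -/
lemma conc_quot (g A B a b S : ℝ) (hA : 0 ≤ A) (hB : 0 ≤ B) (ha : 0 ≤ a) (hb : 0 ≤ b)
    (h1 : (a + b / 4) * S < 1)
    (h2 : ∀ u, 0 ≤ u → u ≤ S → 2 * B ≤ (A + B) * (a + b / 4 - 3 / 2 * b * u)) :
    ConcaveOn ℝ (Set.Icc 0 S) (fun u => g - ((A + B) * u - 2 * B * u ^ 2) /
      (1 - (a + b / 4) * u + b / 2 * u ^ 2)) := by
  set a' := a + b / 4 with ha'
  set b' := b / 2 with hb'
  have ha'0 : 0 ≤ a' := by positivity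
  have hb'0 : 0 ≤ b' := by positivity
  have hDpos : ∀ u ∈ Set.Icc 0 S, 0 < 1 - a' * u + b' * u ^ 2 := by
    intro u hu
    have : a' * u ≤ a' * S := mul_le_mul_of_nonneg_left hu.2 ha'0
    nlinarith [sq_nonneg u]
  have hN : ∀ u : ℝ, HasDerivAt (fun u : ℝ => (A + B) * u - 2 * B * u ^ 2)
      ((A + B) - 4 * B * u) u := by
    intro u
    have h := ((hasDerivAt_id u).const_mul (A + B)).sub
      (((hasDerivAt_id u).pow 2).const_mul (2 * B))
    refine (h.congr_deriv ?_)
    simp
    ring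
  have hD : ∀ u : ℝ, HasDerivAt (fun u : ℝ => 1 - a' * u + b' * u ^ 2)
      (-a' + 2 * b' * u) u := by
    intro u
    have h := (((hasDerivAt_id u).const_mul a').const_sub 1).add
      (((hasDerivAt_id u).pow 2).const_mul b')
    refine (h.congr_deriv ?_)
    simp
    ring
  -- J
  set J : ℝ → ℝ := fun u => (A + B) - 4 * B * u + (2 * B * a' - (A + B) * b') * u ^ 2 with hJ
  have hJd : ∀ u : ℝ, HasDerivAt J (-(4 * B) + 2 * (2 * B * a' - (A + B) * b') * u) u := by
    intro u
    have h := (((hasDerivAt_id u).const_mul (4 * B)).const_sub (A + B)).add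
      (((hasDerivAt_id u).pow 2).const_mul (2 * B * a' - (A + B) * b'))
    refine (h.congr_deriv ?_)
    simp
    ring
  set f' : ℝ → ℝ := fun u => -(J u / (1 - a' * u + b' * u ^ 2) ^ 2) with hf'
  have hf : ∀ u ∈ Set.Icc 0 S, HasDerivAt (fun u => g - ((A + B) * u - 2 * B * u ^ 2) /
      (1 - a' * u + b' * u ^ 2)) (f' u) u := by
    intro u hu
    have hd := hDpos u hu
    have h := ((hN u).div (hD u) hd.ne').const_sub g
    refine h.congr_deriv ?_
    rw [hf', hJ]
    simp only
    congr 1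
    congr 1
    ring
  have hf2 : ∀ u ∈ Set.Icc 0 S, HasDerivAt f'
      (-(((-(4 * B) + 2 * (2 * B * a' - (A + B) * b') * u) * (1 - a' * u + b' * u ^ 2) ^ 2 -
        J u * (2 * (1 - a' * u + b' * u ^ 2) * (-a' + 2 * b' * u))) /
        ((1 - a' * u + b' * u ^ 2) ^ 2) ^ 2)) u := by
    intro u hu
    have hd := hDpos u hu
    have h := ((hJd u).div ((hD u).pow 2) (pow_pos hd 2).ne').neg
    refine h.congr_deriv ?_
    rw [Pi.pow_apply]
    ring
  refine concaveOn_of_hasDerivWithinAt2_nonpos (convex_Icc 0 S) (f' := f')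
    (f'' := fun u => (-(((-(4 * B) + 2 * (2 * B * a' - (A + B) * b') * u) *
      (1 - a' * u + b' * u ^ 2) ^ 2 -
        J u * (2 * (1 - a' * u + b' * u ^ 2) * (-a' + 2 * b' * u))) /
        ((1 - a' * u + b' * u ^ 2) ^ 2) ^ 2))) ?_ ?_ ?_ ?_
  · intro u hu
    exact (hf u hu).continuousAt.continuousWithinAt
  · intro u hu
    exact (hf u (interior_subset hu)).hasDerivWithinAt
  · intro u hu
    exact (hf2 u (interior_subset hu)).hasDerivWithinAt
  · intro u hu
    have hu' : u ∈ Set.Icc 0 S := interior_subset hu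
    have hd := hDpos u hu'
    rw [neg_nonpos]
    refine div_nonneg ?_ (by positivity)
    have key : 0 ≤ (-(2 * B) + (2 * B * a' - (A + B) * b') * u) * (1 - a' * u + b' * u ^ 2) -
        J u * (-a' + 2 * b' * u) := by
      have e : (-(2 * B) + (2 * B * a' - (A + B) * b') * u) * (1 - a' * u + b' * u ^ 2) -
          J u * (-a' + 2 * b' * u) =
          ((A + B) * (a' - 3 * b' * u) - 2 * B) +
          b' * u ^ 2 * (6 * B - (2 * B * a' - (A + B) * b') * u) := by
        rw [hJ]
        ring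
      rw [e]
      have g1 : 0 ≤ (A + B) * (a' - 3 * b' * u) - 2 * B := by
        have := h2 u hu'.1 hu'.2
        have e3 : a' - 3 * b' * u = a' - 3 / 2 * b * u := by rw [hb']; ring
        rw [e3]
        linarith
      have g2 : 0 ≤ b' * u ^ 2 * (6 * B - (2 * B * a' - (A + B) * b') * u) := by
        refine mul_nonneg (by positivity) ?_
        have g3 : a' * u < 1 := lt_of_le_of_lt (mul_le_mul_of_nonneg_left hu'.2 ha'0) h1
        have g4 : 0 ≤ (A + B) * b' * u := mul_nonneg (by positivity) hu'.1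
        nlinarith
      linarith
    have e5 : (-(4 * B) + 2 * (2 * B * a' - (A + B) * b') * u) * (1 - a' * u + b' * u ^ 2) ^ 2 -
        J u * (2 * (1 - a' * u + b' * u ^ 2) * (-a' + 2 * b' * u)) =
        2 * (1 - a' * u + b' * u ^ 2) *
        ((-(2 * B) + (2 * B * a' - (A + B) * b') * u) * (1 - a' * u + b' * u ^ 2) -
        J u * (-a' + 2 * b' * u)) := by ring
    rw [e5]
    positivity

/-! ### binomial coefficients as polynomials -/

lemma ch_succ (m j : ℕ) :
    (m.choose (j + 1) : ℝ) * (j + 1) = (m.choose j : ℝ) * ((m : ℝ) - j) := by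
  rcases Nat.lt_or_ge m j with h | h
  · rw [Nat.choose_eq_zero_of_lt h, Nat.choose_eq_zero_of_lt (by omega)]
    simp
  · have := Nat.choose_succ_right_eq m j
    have h2 : ((m.choose (j + 1) * (j + 1) : ℕ) : ℝ) = ((m.choose j * (m - j) : ℕ) : ℝ) := by
      rw [this]
    rw [Nat.cast_mul, Nat.cast_mul, Nat.cast_sub h] at h2
    push_cast at h2
    exact h2

lemma ch3 (m : ℕ) : (m.choose 3 : ℝ) = m * (m - 1) * (m - 2) / 6 := by
  have h0 := ch_succ m 0
  have h1 := ch_succ m 1
  have h2 := ch_succ m 2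
  simp only [Nat.choose_zero_right, Nat.cast_one, Nat.cast_zero, Nat.cast_ofNat] at h0 h1 h2
  norm_num at h0 h1 h2
  nlinarith

lemma ch4 (m : ℕ) : (m.choose 4 : ℝ) = m * (m - 1) * (m - 2) * (m - 3) / 24 := by
  have h3 := ch3 m
  have h4 := ch_succ m 3
  norm_num at h4
  rw [h3] at h4
  linarith

/-- `(m) C(m-1,k-1) = k C(m,k)` with truncated subtraction -/
lemma ch_pred (n e k : ℕ) (hk : 2 ≤ k) :
    ((n : ℝ) - e) * ((n - 1 - e).choose (k - 1) : ℝ) = k * ((n - e).choose k : ℝ) := by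
  rcases Nat.lt_or_ge e n with h | h
  · have h1 := Nat.add_one_mul_choose_eq (n - 1 - e) (k - 1)
    have e1 : n - 1 - e + 1 = n - e := by omega
    have e2 : k - 1 + 1 = k := by omega
    rw [e1, e2] at h1
    have h2 : (((n - e) * (n - 1 - e).choose (k - 1) : ℕ) : ℝ) =
        (((n - e).choose k * k : ℕ) : ℝ) := by rw [h1]
    rw [Nat.cast_mul, Nat.cast_mul, Nat.cast_sub h.le] at h2
    rw [h2]
    ring
  · have e1 : n - 1 - e = 0 := by omega
    have e2 : n - e = 0 := by omega
    rw [e1, e2, Nat.choose_eq_zero_of_lt (by omega : 0 < k - 1),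
      Nat.choose_eq_zero_of_lt (by omega : 0 < k)]
    simp

/-- the numerical core -/
lemma num_core (p q a b u U ρ amax : ℝ) (p1 : 0 < p) (p2 : 0 < q) (hu0 : 0 ≤ u) (huU : u ≤ U)
    (ha0 : 0 ≤ a) (hb0 : 0 ≤ b) (haM : a ≤ amax) (hρ0 : 0 ≤ ρ) (hρ' : q ≤ ρ * p)
    (hcub' : 142 * (p * b) ≤ 100 * (q * a ^ 2))
    (hnum : amax * (3 * U - 1 / 2) * ρ - amax + ρ * amax ^ 2 * (3 / 2 * U) ≤ 84 / 100)
    (hU3 : 1 / 2 ≤ 3 * U) (hρU : 1 ≤ (3 * U - 1 / 2) * ρ) :
    b * p ≤ (a * q + b * p / 2) * (a + b / 4 - 3 / 2 * b * u) := by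
  have ham : 0 ≤ amax := ha0.trans haM
  have hb2 : b ≤ ρ * amax ^ 2 * (100 / 142) := by
    have h5 : 142 * (p * b) ≤ 100 * (ρ * p * amax ^ 2) := by
      refine hcub'.trans ?_
      have h6 : a ^ 2 ≤ amax ^ 2 := pow_le_pow_left₀ ha0 haM 2
      have h7 : q * a ^ 2 ≤ ρ * p * amax ^ 2 :=
        mul_le_mul hρ' h6 (by positivity) (by positivity)
      linarith
    have h8 : p * b ≤ p * (ρ * amax ^ 2 * (100 / 142)) := by
      linarith
    exact le_of_mul_le_mul_left h8 p1
  have hU0 : 0 ≤ U := hu0.trans huU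
  have hrest : -(84 / 100) * p ≤
      a * p + a * q / 2 - 3 * u * a * q + b * p / 4 - 3 / 2 * b * u * p := by
    have h9 : u * (a * q) ≤ U * (a * q) :=
      mul_le_mul_of_nonneg_right huU (by positivity)
    have h10 : u * (b * p) ≤ U * (b * p) :=
      mul_le_mul_of_nonneg_right huU (by positivity)
    have h11 : (3 * U - 1 / 2) * (a * q) ≤ (3 * U - 1 / 2) * (a * (ρ * p)) := by
      refine mul_le_mul_of_nonneg_left (mul_le_mul_of_nonneg_left hρ' ha0) (by linarith)
    have h12 : a * ((3 * U - 1 / 2) * ρ - 1) ≤ amax * ((3 * U - 1 / 2) * ρ - 1) :=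
      mul_le_mul_of_nonneg_right haM (by linarith)
    have h13 : b * (3 / 2 * U) ≤ ρ * amax ^ 2 * (100 / 142) * (3 / 2 * U) :=
      mul_le_mul_of_nonneg_right hb2 (by linarith)
    have h14 : 0 ≤ ρ * amax ^ 2 * (3 / 2 * U) := by positivity
    have h15 : a * ((3 * U - 1 / 2) * ρ - 1) + b * (3 / 2 * U) ≤ 84 / 100 := by
      have : ρ * amax ^ 2 * (100 / 142) * (3 / 2 * U) ≤ ρ * amax ^ 2 * (3 / 2 * U) := by
        linarith
      linarith
    have h16 := mul_le_mul_of_nonneg_left h15 p1.le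
    have h17 : 0 ≤ b * p := by positivity
    linarith
  have h18 : b * (-(84 / 100) * p) ≤ b * (a * p + a * q / 2 -
      3 * u * a * q + b * p / 4 - 3 / 2 * b * u * p) :=
    mul_le_mul_of_nonneg_left hrest hb0
  linarith [h18, hcub']

/-- concavity of `G` from the numerical inequalities -/
lemma conc_of (d k n s : ℕ) (hd : 1 ≤ d) (hk : 2 ≤ k) (hkn : k ≤ n) (hn : n < k + 3 * d)
    (U amax ρ : ℝ) (hU : 0 ≤ U) (hs : (s : ℝ) ≤ 2 * d * U)
    (ha : ((n - d).choose k : ℝ) ≤ amax * (n.choose k : ℝ)) (_ham : 0 ≤ amax)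
    (h1 : amax * (5 / 4) * U < 1)
    (hρ0 : 0 ≤ ρ) (hρ : k + 2 * d ≤ n → ((n : ℝ) - 2 * d) ≤ ρ * (n - d))
    (hcub : k + 2 * d ≤ n → 142 * (((n : ℝ) - d) * (n.choose k : ℝ) *
      ((n - 2 * d).choose k : ℝ)) ≤ 100 * (((n : ℝ) - 2 * d) * ((n - d).choose k : ℝ) ^ 2))
    (hnum : amax * (3 * U - 1 / 2) * ρ - amax + ρ * amax ^ 2 * (3 / 2 * U) ≤ 84 / 100)
    (hU3 : 1 / 2 ≤ 3 * U) (hρU : 1 ≤ (3 * U - 1 / 2) * ρ) :
    ConcaveOn ℝ (Set.Icc 0 (s : ℝ)) (fun x => GT d k n x) := by
  have hdr : (1 : ℝ) ≤ d := by exact_mod_cast hd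
  have hd0 : (0 : ℝ) < d := by linarith
  have hkr : (2 : ℝ) ≤ k := by exact_mod_cast hk
  have hn0 : (0 : ℝ) < n := by
    have : 0 < n := by omega
    exact_mod_cast this
  set c0 : ℝ := (n.choose k : ℝ) with hc0
  set c1 : ℝ := ((n - d).choose k : ℝ) with hc1
  set c2 : ℝ := ((n - 2 * d).choose k : ℝ) with hc2
  set e0 : ℝ := ((n - 1).choose (k - 1) : ℝ) with he0
  set e1 : ℝ := ((n - 1 - d).choose (k - 1) : ℝ) with he1
  set e2 : ℝ := ((n - 1 - 2 * d).choose (k - 1) : ℝ) with he2
  have hc0p : 0 < c0 := by rw [hc0]; exact_mod_cast Nat.choose_pos hkn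
  have hc1p : 0 ≤ c1 := by rw [hc1]; positivity
  have hc2p : 0 ≤ c2 := by rw [hc2]; positivity
  have he1p : 0 ≤ e1 := by rw [he1]; positivity
  have he2p : 0 ≤ e2 := by rw [he2]; positivity
  have r0 : (n : ℝ) * e0 = k * c0 := by
    have := ch_pred n 0 k hk
    simp only [Nat.sub_zero, Nat.cast_zero, sub_zero] at this
    exact this
  have r1 : ((n : ℝ) - d) * e1 = k * c1 := ch_pred n d k hk
  have r2 : ((n : ℝ) - 2 * d) * e2 = k * c2 := by
    have := ch_pred n (2 * d) k hk
    push_cast at this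
    exact this
  -- the normalised quantities
  set g : ℝ := k / n with hg
  set a : ℝ := c1 / c0 with ha'
  set b : ℝ := c2 / c0 with hb'
  set A : ℝ := (e1 - g * c1) / c0 with hA'
  set B : ℝ := (e2 - g * c2) / (4 * c0) with hB'
  have hge0 : e0 = g * c0 := by rw [hg]; field_simp; linarith
  have ha0 : 0 ≤ a := div_nonneg hc1p hc0p.le
  have hb0 : 0 ≤ b := div_nonneg hc2p hc0p.le
  have haM : a ≤ amax := by rw [ha', div_le_iff₀ hc0p]; exact ha
  -- signs of `A`, `B`
  have hAn : A * (n * (n - d)) = k * d * a := by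
    have : (e1 - g * c1) * (n * ((n : ℝ) - d)) = k * d * c1 := by
      rw [hg]
      have : (k / n : ℝ) * n = k := by field_simp
      calc (e1 - k / n * c1) * (n * ((n : ℝ) - d)) = n * (((n : ℝ) - d) * e1) -
            (k / n * n) * c1 * (n - d) := by ring
        _ = _ := by rw [r1, this]; ring
    rw [hA', ha', div_mul_eq_mul_div, this]
    ring
  have hBn : B * (n * (n - 2 * d)) = k * d * b / 2 := by
    have : (e2 - g * c2) * (n * ((n : ℝ) - 2 * d)) = 2 * (k * d * c2) := by
      rw [hg]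
      have : (k / n : ℝ) * n = k := by field_simp
      calc (e2 - k / n * c2) * (n * ((n : ℝ) - 2 * d)) = n * (((n : ℝ) - 2 * d) * e2) -
            (k / n * n) * c2 * (n - 2 * d) := by ring
        _ = _ := by rw [r2, this]; ring
    rw [hB', hb', div_mul_eq_mul_div, this]
    field_simp
    ring
  have hA0 : 0 ≤ A := by
    rcases Nat.lt_or_ge d n with hdn | hdn
    · have : (d : ℝ) < n := by exact_mod_cast hdn
      have hp : 0 < (n : ℝ) * (n - d) := mul_pos hn0 (by linarith)
      by_contra hneg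
      push Not at hneg
      have : A * (n * (n - d)) < 0 := mul_neg_of_neg_of_pos hneg hp
      rw [hAn] at this
      have : 0 ≤ (k : ℝ) * d * a := by positivity
      linarith
    · have z1 : c1 = 0 := by
        rw [hc1, show n - d = 0 by omega, Nat.choose_eq_zero_of_lt (by omega), Nat.cast_zero]
      rw [hA', z1, mul_zero, sub_zero]
      positivity
  -- the case without third term
  have hsmall : n < k + 2 * d → b = 0 ∧ B = 0 := by
    intro hlt
    have z2 : c2 = 0 := by
      rw [hc2, Nat.choose_eq_zero_of_lt (by omega), Nat.cast_zero]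
    have z3 : e2 = 0 := by
      rw [he2, Nat.choose_eq_zero_of_lt (by omega), Nat.cast_zero]
    rw [hb', hB', z2, z3]
    simp
  have hbig : k + 2 * d ≤ n → 0 < (n : ℝ) - 2 * d := by
    intro hge
    have : (k : ℝ) + 2 * d ≤ n := by exact_mod_cast hge
    linarith
  have hB0 : 0 ≤ B := by
    rcases Nat.lt_or_ge n (k + 2 * d) with hlt | hge
    · rw [(hsmall hlt).2]
    · have hp : 0 < (n : ℝ) * (n - 2 * d) := mul_pos hn0 (hbig hge)
      by_contra hneg
      push Not at hneg
      have : B * (n * (n - 2 * d)) < 0 := mul_neg_of_neg_of_pos hneg hp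
      rw [hBn] at this
      have : 0 ≤ (k : ℝ) * d * b / 2 := by positivity
      linarith
  -- `1.42 b ≤ ρ₀ a²`
  have hab : b ≤ a := by
    rw [ha', hb']
    refine div_le_div_of_nonneg_right ?_ hc0p.le
    rw [hc1, hc2]
    exact_mod_cast Nat.choose_le_choose k (by omega)
  have hmain : ∀ u, 0 ≤ u → u ≤ U → 2 * B ≤ (A + B) * (a + b / 4 - 3 / 2 * b * u) := by
    intro u hu0 huU
    rcases Nat.lt_or_ge n (k + 2 * d) with hlt | hge
    · rw [(hsmall hlt).1, (hsmall hlt).2]
      have : 0 ≤ A * a := mul_nonneg hA0 ha0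
      linarith
    · have p2 := hbig hge
      have p1 : 0 < (n : ℝ) - d := by linarith
      have hcub' : 142 * (((n : ℝ) - d) * b) ≤ 100 * (((n : ℝ) - 2 * d) * a ^ 2) := by
        have := hcub hge
        have e : 142 * (((n : ℝ) - d) * b) = 142 * (((n : ℝ) - d) * c0 * c2) / c0 ^ 2 := by
          rw [hb']; field_simp
        have e' : 100 * (((n : ℝ) - 2 * d) * a ^ 2) = 100 * (((n : ℝ) - 2 * d) * c1 ^ 2) / c0 ^ 2 := by
          rw [ha']; field_simp
        rw [e, e']
        exact div_le_div_of_nonneg_right this (by positivity)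
      have hρ' := hρ hge
      -- multiply by `n (n-d) (n-2d)`
      have hpos : 0 < (n : ℝ) * (n - d) * (n - 2 * d) := by positivity
      have hkd : 0 < (k : ℝ) * d := by positivity
      refine le_of_mul_le_mul_left ?_ hpos
      have eL : (n : ℝ) * (n - d) * (n - 2 * d) * (2 * B) = k * d * (b * (n - d)) := by
        calc (n : ℝ) * (n - d) * (n - 2 * d) * (2 * B) = 2 * (n - d) * (B * (n * (n - 2 * d))) := by
              ring
          _ = _ := by rw [hBn]; ring
      have eR : (n : ℝ) * (n - d) * (n - 2 * d) * ((A + B) * (a + b / 4 - 3 / 2 * b * u)) =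
          k * d * ((a * (n - 2 * d) + b * (n - d) / 2) * (a + b / 4 - 3 / 2 * b * u)) := by
        calc (n : ℝ) * (n - d) * (n - 2 * d) * ((A + B) * (a + b / 4 - 3 / 2 * b * u)) =
              ((A * (n * (n - d))) * (n - 2 * d) + (B * (n * (n - 2 * d))) * (n - d)) *
                (a + b / 4 - 3 / 2 * b * u) := by ring
          _ = _ := by rw [hAn, hBn]; ring
      rw [eL, eR]
      refine mul_le_mul_of_nonneg_left ?_ hkd.le
      exact num_core _ _ a b u U ρ amax p1 p2 hu0 huU ha0 hb0 haM hρ0 hρ' hcub' hnum hU3 hρU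
  have hlast : (a + b / 4) * U < 1 := by
    have : a + b / 4 ≤ amax * (5 / 4) := by linarith
    have := mul_le_mul_of_nonneg_right this hU
    linarith
  have hconc := conc_quot g A B a b U hA0 hB0 ha0 hb0 hlast hmain
  -- transfer
  have hform : ∀ x : ℝ, x ∈ Set.Icc 0 (s : ℝ) → x / (2 * d) ∈ Set.Icc 0 U ∧
      GT d k n x = g - ((A + B) * (x / (2 * d)) - 2 * B * (x / (2 * d)) ^ 2) /
      (1 - (a + b / 4) * (x / (2 * d)) + b / 2 * (x / (2 * d)) ^ 2) := by
    intro x hx
    have hu : x / (2 * d) ∈ Set.Icc 0 U := by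
      refine ⟨div_nonneg hx.1 (by positivity), ?_⟩
      rw [div_le_iff₀ (by positivity)]
      have := hx.2
      linarith
    refine ⟨hu, ?_⟩
    set u : ℝ := x / (2 * d) with hu'
    have hxu : x / d = 2 * u := by rw [hu']; field_simp
    unfold GT
    rw [TT_three d k n x hd (by omega) hn, TT_three d (k - 1) (n - 1) x hd (by omega) (by omega),
      hxu, ← hc0, ← hc1, ← hc2, ← he0, ← he1, ← he2]
    have hDpos : 0 < 1 - (a + b / 4) * u + b / 2 * u ^ 2 := by
      have : (a + b / 4) * u ≤ (a + b / 4) * U :=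
        mul_le_mul_of_nonneg_left hu.2 (by positivity)
      have : 0 ≤ b / 2 * u ^ 2 := by positivity
      linarith
    have eD : c0 - 2 * u / 2 * c1 + 2 * u * (2 * u - 1) / 8 * c2 =
        c0 * (1 - (a + b / 4) * u + b / 2 * u ^ 2) := by
      rw [ha', hb']
      field_simp
      ring
    have eN : e0 - 2 * u / 2 * e1 + 2 * u * (2 * u - 1) / 8 * e2 =
        c0 * (g * (1 - (a + b / 4) * u + b / 2 * u ^ 2) -
          ((A + B) * u - 2 * B * u ^ 2)) := by
      have hA2 : e1 = g * c1 + A * c0 := by rw [hA']; field_simp; ring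
      have hB2 : e2 = g * c2 + 4 * B * c0 := by rw [hB']; field_simp; ring
      have ha2 : c1 = a * c0 := by rw [ha']; field_simp
      have hb2 : c2 = b * c0 := by rw [hb']; field_simp
      rw [hge0, hA2, hB2, ha2, hb2]
      ring
    rw [eD, eN, mul_div_mul_left _ _ hc0p.ne', sub_div, mul_div_assoc, div_self hDpos.ne', mul_one]
  refine ⟨convex_Icc 0 (s : ℝ), ?_⟩
  intro x hx y hy p q hp hq hpq
  have h3 := hconc.2 (hform x hx).1 (hform y hy).1 hp hq hpq
  have hxy : p • x + q • y ∈ Set.Icc 0 (s : ℝ) := (convex_Icc 0 (s : ℝ)) hx hy hp hq hpq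
  have e5 : (p • x + q • y) / (2 * (d : ℝ)) = p • (x / (2 * d)) + q • (y / (2 * d)) := by
    simp only [smul_eq_mul]
    ring
  show p • GT d k n x + q • GT d k n y ≤ GT d k n (p • x + q • y)
  rw [(hform x hx).2, (hform y hy).2, (hform _ hxy).2, e5]
  exact h3

lemma poly3 (A d : ℕ) (hA : 3 ≤ A) (hd : 3 ≤ d) (h : 2 * A ≤ d + 5) :
    142 * (((A : ℝ) + 2 * d) * (A + 2 * d - 1) * (A + 2 * d - 2) * ((A - 1) * (A - 2))) ≤
      100 * (((A : ℝ) + d) * ((A + d - 1) * (A + d - 2)) ^ 2) := by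
  rcases Nat.lt_or_ge A 4 with h4 | h4
  · have : A = 3 := by omega
    subst this
    obtain ⟨e, rfl⟩ := Nat.exists_eq_add_of_le hd
    push_cast
    rw [← sub_nonneg]
    ring_nf
    positivity
  · obtain ⟨t, rfl⟩ := Nat.exists_eq_add_of_le h4
    obtain ⟨e, rfl⟩ : ∃ e, d = 3 + 2 * t + e := ⟨d - (3 + 2 * t), by omega⟩
    push_cast
    rw [← sub_nonneg]
    ring_nf
    positivity

lemma poly4 (A d : ℕ) (hA : 4 ≤ A) (hd : 3 ≤ d) (h : A ≤ d + 3) :
    142 * (((A : ℝ) + 2 * d) * (A + 2 * d - 1) * (A + 2 * d - 2) * (A + 2 * d - 3) *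
      ((A - 1) * (A - 2) * (A - 3))) ≤
      100 * (((A : ℝ) + d) * ((A + d - 1) * (A + d - 2) * (A + d - 3)) ^ 2) := by
  rcases Nat.lt_or_ge A 6 with h6 | h6
  · have : A = 4 ∨ A = 5 := by omega
    rcases this with rfl | rfl
    · obtain ⟨e, rfl⟩ := Nat.exists_eq_add_of_le hd
      push_cast
      rw [← sub_nonneg]
      ring_nf
      positivity
    · obtain ⟨e, rfl⟩ := Nat.exists_eq_add_of_le hd
      push_cast
      rw [← sub_nonneg]
      ring_nf
      positivity
  · obtain ⟨t, rfl⟩ := Nat.exists_eq_add_of_le h6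
    obtain ⟨e, rfl⟩ : ∃ e, d = 3 + t + e := ⟨d - (3 + t), by omega⟩
    push_cast
    rw [← sub_nonneg]
    ring_nf
    positivity

theorem conc34 : Conc34 := by
  intro d k n s hd hk hkn hsn hsk hreg
  have hdr : (3 : ℝ) ≤ d := by exact_mod_cast hd
  rcases hk with rfl | rfl
  · have q1 : 6 * n < 15 * d + 18 := by
      by_contra hc
      exact hreg (Or.inl ⟨rfl, Or.inl (by omega)⟩)
    have q2 : 3 * n ≤ 10 * d := by omega
    have q2r : 3 * (n : ℝ) ≤ 10 * d := by exact_mod_cast q2
    refine conc_of d 3 n s (by omega) (by norm_num) hkn (by omega) 1 (343 / 1000) (4 / 7)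
      (by norm_num) ?_ ?_ (by norm_num) (by norm_num) (by norm_num) ?_ ?_ (by norm_num)
      (by norm_num) (by norm_num)
    · have : (s : ℝ) ≤ ((3 - 1) * d : ℕ) := by exact_mod_cast hsk.le
      push_cast at this
      linarith
    · rcases Nat.lt_or_ge n (d + 3) with h3 | h3
      · rw [Nat.choose_eq_zero_of_lt (by omega : n - d < 3), Nat.cast_zero]
        positivity
      · rw [ch3, ch3, Nat.cast_sub (by omega)]
        have h3r : (d : ℝ) + 3 ≤ n := by exact_mod_cast h3
        have a1 : (n : ℝ) - d ≤ 7 / 10 * n := by linarith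
        have a2 : (n : ℝ) - d - 1 ≤ 7 / 10 * (n - 1) := by linarith
        have a3 : (n : ℝ) - d - 2 ≤ 7 / 10 * (n - 2) := by linarith
        have b1 := mul_le_mul (mul_le_mul a1 a2 (by linarith) (by linarith)) a3 (by linarith)
          (mul_nonneg (by linarith) (by linarith))
        linarith
    · intro h
      linarith
    · intro h
      obtain ⟨A, rfl⟩ : ∃ A, n = A + 2 * d := ⟨n - 2 * d, by omega⟩
      have hp := poly3 A d (by omega) hd (by omega)
      have e1 : A + 2 * d - 2 * d = A := by omega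
      have e2 : A + 2 * d - d = A + d := by omega
      rw [e1, e2, ch3, ch3, ch3]
      have hA : (3 : ℝ) ≤ A := by
        have : 3 ≤ A := by omega
        exact_mod_cast this
      push_cast
      have hpos : 0 ≤ (A : ℝ) * (A + d) / 36 := by positivity
      have := mul_le_mul_of_nonneg_left hp hpos
      linarith
  · have q1 : 139 * n < 400 * d + 556 := by
      by_contra hc
      exact hreg (Or.inr (Or.inl ⟨rfl, Or.inl (by omega)⟩))
    have q2 : n ≤ 4 * d := by omega
    have q2r : (n : ℝ) ≤ 4 * d := by exact_mod_cast q2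
    refine conc_of d 4 n s (by omega) (by norm_num) hkn (by omega) (3 / 2) (81 / 256) (2 / 3)
      (by norm_num) ?_ ?_ (by norm_num) (by norm_num) (by norm_num) ?_ ?_ (by norm_num)
      (by norm_num) (by norm_num)
    · have : (s : ℝ) ≤ ((4 - 1) * d : ℕ) := by exact_mod_cast hsk.le
      push_cast at this
      linarith
    · rcases Nat.lt_or_ge n (d + 4) with h3 | h3
      · rw [Nat.choose_eq_zero_of_lt (by omega : n - d < 4), Nat.cast_zero]
        positivity
      · rw [ch4, ch4, Nat.cast_sub (by omega)]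
        have h3r : (d : ℝ) + 4 ≤ n := by exact_mod_cast h3
        have a1 : (n : ℝ) - d ≤ 3 / 4 * n := by linarith
        have a2 : (n : ℝ) - d - 1 ≤ 3 / 4 * (n - 1) := by linarith
        have a3 : (n : ℝ) - d - 2 ≤ 3 / 4 * (n - 2) := by linarith
        have a4 : (n : ℝ) - d - 3 ≤ 3 / 4 * (n - 3) := by linarith
        have b1 := mul_le_mul (mul_le_mul (mul_le_mul a1 a2 (by linarith) (by linarith)) a3
          (by linarith) (mul_nonneg (by linarith) (by linarith))) a4 (by linarith)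
          (mul_nonneg (mul_nonneg (by linarith) (by linarith)) (by linarith))
        linarith
    · intro h
      linarith
    · intro h
      obtain ⟨A, rfl⟩ : ∃ A, n = A + 2 * d := ⟨n - 2 * d, by omega⟩
      have hp := poly4 A d (by omega) hd (by omega)
      have e1 : A + 2 * d - 2 * d = A := by omega
      have e2 : A + 2 * d - d = A + d := by omega
      rw [e1, e2, ch4, ch4, ch4]
      have hA : (4 : ℝ) ≤ A := by
        have : 4 ≤ A := by omega
        exact_mod_cast this
      push_cast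
      have hpos : 0 ≤ (A : ℝ) * (A + d) / 576 := by positivity
      have := mul_le_mul_of_nonneg_left hp hpos
      linarith

end Pool.Agent.Lib.MP_99e3ed_co.H98
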