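import Pool.Agent.Lib.MP_99e3ed_co.Ratio.Interfaces

/-!
Ratio form of Kahn's conjecture: the algebraic part of (Z).
-/

set_option autoImplicit false

open Finset

namespace Pool.Agent.Lib.MP_99e3ed_co.H98

/-- the generic tail estimate: `μ` is a sequence of upper bounds for tail / term -/
lemma tail_le (k w : ℕ) (D c μ : ℕ → ℝ) (hc : ∀ t, 0 ≤ c t)
    (hD : ∀ h, 2 ≤ h → h < k → 0 < D h)
    (h1 : ∀ h, 2 ≤ h → h < k → D h * c (k - h - 1) ≤ ((k : ℝ) - h) * c (k - h))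
    (hμ1 : ∀ h, 2 ≤ h → 1 ≤ μ h)
    (hμ : ∀ h, 2 ≤ h → h < k → h < w →
      ((w : ℝ) - h) * ((k : ℝ) - h) * μ (h + 1) ≤ ((h : ℝ) + 1) * D h * (μ h - 1)) :
    ∀ m h, h + m = k → 2 ≤ h →
      ∑ j ∈ Finset.Ico h (k + 1), (w.choose j : ℝ) * c (k - j) ≤
        μ h * ((w.choose h : ℝ) * c (k - h)) := by
  intro m
  induction m with
  | zero =>
    intro h hk h2
    have : h = k := by omega
    subst this
    rw [Nat.Ico_succ_singleton, Finset.sum_singleton]
    have h0 : 0 ≤ (w.choose h : ℝ) * c (h - h) := mul_nonneg (Nat.cast_nonneg _) (hc _)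
    nlinarith [hμ1 h h2]
  | succ m ih =>
    intro h hk h2
    have hlt : h < k := by omega
    rw [Finset.sum_eq_sum_Ico_succ_bot (by omega)]
    have ih' := ih (h + 1) (by omega) (by omega)
    have hstep : μ (h + 1) * ((w.choose (h + 1) : ℝ) * c (k - (h + 1))) ≤
        (μ h - 1) * ((w.choose h : ℝ) * c (k - h)) := by
      have e1 : k - (h + 1) = k - h - 1 := by omega
      rw [e1]
      by_cases hw : h < w
      · have hch : ((h : ℝ) + 1) * (w.choose (h + 1) : ℝ) = ((w : ℝ) - h) * (w.choose h : ℝ) := by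
          have := Nat.choose_succ_right_eq w h
          have h3 : ((w.choose (h + 1) * (h + 1) : ℕ) : ℝ) = ((w.choose h * (w - h) : ℕ) : ℝ) := by
            exact_mod_cast this
          rw [Nat.cast_mul, Nat.cast_mul, Nat.cast_sub hw.le] at h3
          push_cast at h3
          linarith
        have hDh := hD h h2 hlt
        have a1 := h1 h h2 hlt
        have a2 := hμ h h2 hlt hw
        have hh : (0 : ℝ) < (h : ℝ) + 1 := by positivity
        have hμp : 0 ≤ μ (h + 1) := by linarith [hμ1 (h + 1) (by omega)]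
        have hwh : (0 : ℝ) ≤ (w : ℝ) - h := by
          have : (h : ℝ) ≤ w := by exact_mod_cast hw.le
          linarith
        have hCw : (0 : ℝ) ≤ (w.choose h : ℝ) := Nat.cast_nonneg _
        have hpos : 0 < ((h : ℝ) + 1) * D h := mul_pos hh hDh
        refine le_of_mul_le_mul_left ?_ hpos
        calc ((h : ℝ) + 1) * D h * (μ (h + 1) * ((w.choose (h + 1) : ℝ) * c (k - h - 1)))
            = μ (h + 1) * (((h : ℝ) + 1) * (w.choose (h + 1) : ℝ)) * (D h * c (k - h - 1)) := by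
              ring
          _ = μ (h + 1) * (((w : ℝ) - h) * (w.choose h : ℝ)) * (D h * c (k - h - 1)) := by
              rw [hch]
          _ ≤ μ (h + 1) * (((w : ℝ) - h) * (w.choose h : ℝ)) * (((k : ℝ) - h) * c (k - h)) := by
              refine mul_le_mul_of_nonneg_left a1 ?_
              positivity
          _ = (((w : ℝ) - h) * ((k : ℝ) - h) * μ (h + 1)) * ((w.choose h : ℝ) * c (k - h)) := by
              ring
          _ ≤ (((h : ℝ) + 1) * D h * (μ h - 1)) * ((w.choose h : ℝ) * c (k - h)) := by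
              refine mul_le_mul_of_nonneg_right a2 ?_
              exact mul_nonneg hCw (hc _)
          _ = ((h : ℝ) + 1) * D h * ((μ h - 1) * ((w.choose h : ℝ) * c (k - h))) := by ring
      · have hz : w.choose (h + 1) = 0 := Nat.choose_eq_zero_of_lt (by omega)
        rw [hz]
        simp only [Nat.cast_zero, zero_mul, mul_zero]
        refine mul_nonneg ?_ (mul_nonneg (Nat.cast_nonneg _) (hc _))
        linarith [hμ1 h h2]
    linarith

/-- algebraic part with a general multiplier sequence -/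
lemma zalg_mu (k w : ℕ) (N E : ℝ) (c μ : ℕ → ℝ) (hk : 3 ≤ k) (hN : 0 < N) (hE : 0 ≤ E)
    (hc : ∀ t, 0 ≤ c t) (h0 : (k : ℝ) * c k ≤ (N - k + 1) * c (k - 1))
    (h1 : ∀ t, 1 ≤ t → t ≤ k - 1 → (N - (t - 1) * (1 + E / N)) * c (t - 1) ≤ t * c t)
    (hD : 0 < N - ((k : ℝ) - 1 - 1) * (1 + E / N))
    (hμ1 : ∀ h, 2 ≤ h → 1 ≤ μ h)
    (hμ : ∀ h : ℕ, 2 ≤ h → h < k → h < w →
      ((w : ℝ) - h) * ((k : ℝ) - h) * μ (h + 1) ≤
        ((h : ℝ) + 1) * (N - ((k : ℝ) - h - 1) * (1 + E / N)) * (μ h - 1))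
    (h2 : (k : ℝ) * (w * (w - 1)) * μ 2 ≤ 2 * (N + 1) * (N - ((k : ℝ) - 1 - 1) * (1 + E / N))) :
    ∑ h ∈ range (k + 1), (w.choose h : ℝ) * c (k - h) ≤ (N + w) * c (k - 1) := by
  have hB : 0 ≤ 1 + E / N := by positivity
  have hkr : (3 : ℝ) ≤ k := by exact_mod_cast hk
  have hDh : ∀ h : ℕ, 1 ≤ h → 0 < N - ((k : ℝ) - h - 1) * (1 + E / N) := by
    intro h hh
    have hh' : (1 : ℝ) ≤ h := by exact_mod_cast hh
    have : ((k : ℝ) - h - 1) * (1 + E / N) ≤ ((k : ℝ) - 1 - 1) * (1 + E / N) :=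
      mul_le_mul_of_nonneg_right (by linarith) hB
    linarith
  have hrec : ∀ h : ℕ, 1 ≤ h → h < k →
      (N - ((k : ℝ) - h - 1) * (1 + E / N)) * c (k - h - 1) ≤ ((k : ℝ) - h) * c (k - h) := by
    intro h hh hlt
    have := h1 (k - h) (by omega) (by omega)
    rw [Nat.cast_sub hlt.le] at this
    exact this
  have htail := tail_le k w (fun h => N - ((k : ℝ) - h - 1) * (1 + E / N)) c μ hc
    (fun h hh _ => hDh h (by omega)) (fun h hh hlt => hrec h (by omega) hlt) hμ1 hμ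
    (k - 2) 2 (by omega) le_rfl
  rw [← Nat.Ico_zero_eq_range, Finset.sum_eq_sum_Ico_succ_bot (by omega),
    Finset.sum_eq_sum_Ico_succ_bot (by omega)]
  have hD1 := hDh 1 le_rfl
  have hr1 := hrec 1 le_rfl (by omega)
  simp only [Nat.cast_one] at hD1 hr1
  have e2 : k - 1 - 1 = k - 2 := by omega
  rw [e2] at hr1
  have hch : (w.choose 2 : ℝ) = w * (w - 1) / 2 := Nat.cast_choose_two ℝ w
  have hμ2 : 0 ≤ μ 2 := by linarith [hμ1 2 le_rfl]
  have hc1 := hc (k - 1)
  have hww : 0 ≤ (w : ℝ) * (w - 1) := by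
    have : 0 ≤ (w.choose 2 : ℝ) := Nat.cast_nonneg _
    rw [hch] at this
    linarith
  -- the main term
  have hmain : μ 2 * ((w.choose 2 : ℝ) * c (k - 2)) ≤ (N + 1) * (k - 1) / k * c (k - 1) := by
    have hk0 : (0 : ℝ) < k := by linarith
    have hpos : 0 < (k : ℝ) * (N - ((k : ℝ) - 1 - 1) * (1 + E / N)) := mul_pos hk0 hD1
    refine le_of_mul_le_mul_left ?_ hpos
    rw [hch]
    calc (k : ℝ) * (N - ((k : ℝ) - 1 - 1) * (1 + E / N)) * (μ 2 * (w * (w - 1) / 2 * c (k - 2)))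
        = ((k : ℝ) * (w * (w - 1)) * μ 2 / 2) *
            ((N - ((k : ℝ) - 1 - 1) * (1 + E / N)) * c (k - 2)) := by ring
      _ ≤ ((k : ℝ) * (w * (w - 1)) * μ 2 / 2) * (((k : ℝ) - 1) * c (k - 1)) := by
          refine mul_le_mul_of_nonneg_left hr1 ?_
          positivity
      _ ≤ (2 * (N + 1) * (N - ((k : ℝ) - 1 - 1) * (1 + E / N)) / 2) *
            (((k : ℝ) - 1) * c (k - 1)) := by
          refine mul_le_mul_of_nonneg_right (by linarith) ?_
          exact mul_nonneg (by linarith) hc1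
      _ = (k : ℝ) * (N - ((k : ℝ) - 1 - 1) * (1 + E / N)) *
            ((N + 1) * (k - 1) / k * c (k - 1)) := by
          field_simp
  have hz : (w.choose 0 : ℝ) * c (k - 0) ≤ (N - k + 1) / k * c (k - 1) := by
    rw [Nat.choose_zero_right, Nat.sub_zero, Nat.cast_one, one_mul]
    have hk0 : (0 : ℝ) < k := by linarith
    rw [div_mul_eq_mul_div, le_div_iff₀ hk0]
    linarith
  have hone : (w.choose (0 + 1) : ℝ) * c (k - (0 + 1)) = w * c (k - 1) := by
    rw [Nat.zero_add, Nat.choose_one_right]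
  have hid : (N - k + 1) / k * c (k - 1) + (N + 1) * (k - 1) / k * c (k - 1) = N * c (k - 1) := by
    have hk0 : (k : ℝ) ≠ 0 := by linarith
    field_simp
    ring
  have e3 : (0 + 1 + 1 : ℕ) = 2 := rfl
  rw [hone, e3]
  linarith

/-- four-level version; `e h` are lower bounds of `D h`, `m h` the multipliers -/
lemma zalg4 (k w d : ℕ) (N E : ℝ) (c : ℕ → ℝ) (e1 e2 e3 e4 m2 m3 m4 : ℝ)
    (hk : 3 ≤ k) (hwd : w ≤ d) (hw2 : 2 ≤ w) (hN : 0 < N) (hE : 0 ≤ E)
    (hc : ∀ t, 0 ≤ c t) (h0 : (k : ℝ) * c k ≤ (N - k + 1) * c (k - 1))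
    (h1 : ∀ t, 1 ≤ t → t ≤ k - 1 → (N - (t - 1) * (1 + E / N)) * c (t - 1) ≤ t * c t)
    (hm2 : 1 ≤ m2) (hm3 : 1 ≤ m3) (hm4 : 1 ≤ m4) (he1 : 0 < e1)
    (hD1 : e1 ≤ N - ((k : ℝ) - 2) * (1 + E / N))
    (hD2 : e2 ≤ N - ((k : ℝ) - 3) * (1 + E / N))
    (hD3 : 4 ≤ k → e3 ≤ N - ((k : ℝ) - 4) * (1 + E / N))
    (hD4 : 5 ≤ k → e4 ≤ N - ((k : ℝ) - 5) * (1 + E / N))
    (c1 : (k : ℝ) * (d * (d - 1)) * m2 ≤ 2 * (N + 1) * e1)
    (c2 : 3 ≤ d → ((d : ℝ) - 2) * ((k : ℝ) - 2) * m3 ≤ 3 * e2 * (m2 - 1))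
    (c3 : 4 ≤ k → 4 ≤ d → ((d : ℝ) - 3) * ((k : ℝ) - 3) * m4 ≤ 4 * e3 * (m3 - 1))
    (c4 : 5 ≤ k → 5 ≤ d → ((d : ℝ) - 4) * ((k : ℝ) - 4) * m4 ≤ 5 * e4 * (m4 - 1)) :
    ∑ h ∈ range (k + 1), (w.choose h : ℝ) * c (k - h) ≤ (N + w) * c (k - 1) := by
  have hB : 0 ≤ 1 + E / N := by positivity
  have hkr : (3 : ℝ) ≤ k := by exact_mod_cast hk
  have hwdr : (w : ℝ) ≤ d := by exact_mod_cast hwd
  have hw2r : (2 : ℝ) ≤ w := by exact_mod_cast hw2
  refine zalg_mu k w N E c (fun h => if h = 2 then m2 else if h = 3 then m3 else m4)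
    hk hN hE hc h0 h1 ?_ ?_ ?_ ?_
  · have : (k : ℝ) - 1 - 1 = k - 2 := by ring
    rw [this]
    linarith
  · intro h hh
    split_ifs <;> assumption
  · intro h hh hhk hhw
    have hhkr : (h : ℝ) + 1 ≤ k := by exact_mod_cast hhk
    have hhwr : (h : ℝ) + 1 ≤ w := by exact_mod_cast hhw
    by_cases h2 : h = 2
    · subst h2
      have g := c2 (by omega)
      norm_num at hhkr hhwr ⊢
      have e : (k : ℝ) - 2 - 1 = k - 3 := by ring
      rw [e]
      have t1 : ((w : ℝ) - 2) * ((k : ℝ) - 2) * m3 ≤ ((d : ℝ) - 2) * ((k : ℝ) - 2) * m3 := by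
        refine mul_le_mul_of_nonneg_right (mul_le_mul_of_nonneg_right (by linarith) ?_) ?_ <;>
          linarith
      have t2 : 3 * e2 * (m2 - 1) ≤ 3 * (N - ((k : ℝ) - 3) * (1 + E / N)) * (m2 - 1) := by
        refine mul_le_mul_of_nonneg_right (by linarith) (by linarith)
      have e' : (2 : ℝ) + 1 = 3 := by norm_num
      try rw [e']
      linarith
    · by_cases h3 : h = 3
      · subst h3
        have g := c3 (by omega) (by omega)
        have g' := hD3 (by omega)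
        norm_num at hhkr hhwr ⊢
        have e : (k : ℝ) - 3 - 1 = k - 4 := by ring
        rw [e]
        have t1 : ((w : ℝ) - 3) * ((k : ℝ) - 3) * m4 ≤ ((d : ℝ) - 3) * ((k : ℝ) - 3) * m4 := by
          refine mul_le_mul_of_nonneg_right (mul_le_mul_of_nonneg_right (by linarith) ?_) ?_ <;>
            linarith
        have t2 : 4 * e3 * (m3 - 1) ≤ 4 * (N - ((k : ℝ) - 4) * (1 + E / N)) * (m3 - 1) := by
          refine mul_le_mul_of_nonneg_right (by linarith) (by linarith)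
        linarith
      · have h4 : 4 ≤ h := by omega
        have h4r : (4 : ℝ) ≤ h := by exact_mod_cast h4
        have n2 : ¬ (h + 1 = 2) := by omega
        have n3 : ¬ (h + 1 = 3) := by omega
        simp only [h2, h3, n2, n3, if_false]
        have g := c4 (by omega) (by omega)
        have g' := hD4 (by omega)
        have hm41 : 0 ≤ m4 - 1 := by linarith
        have t1 : ((w : ℝ) - h) * ((k : ℝ) - h) * m4 ≤ ((d : ℝ) - 4) * ((k : ℝ) - 4) * m4 := by
          refine mul_le_mul_of_nonneg_right (mul_le_mul ?_ ?_ ?_ ?_) ?_ <;> linarith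
        have hDp : 0 ≤ N - ((k : ℝ) - h - 1) * (1 + E / N) := by
          have : ((k : ℝ) - h - 1) * (1 + E / N) ≤ ((k : ℝ) - 2) * (1 + E / N) :=
            mul_le_mul_of_nonneg_right (by linarith) hB
          linarith
        have t3 : e4 ≤ N - ((k : ℝ) - h - 1) * (1 + E / N) := by
          have : ((k : ℝ) - h - 1) * (1 + E / N) ≤ ((k : ℝ) - 5) * (1 + E / N) :=
            mul_le_mul_of_nonneg_right (by linarith) hB
          linarith
        have t2 : 5 * e4 * (m4 - 1) ≤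
            ((h : ℝ) + 1) * (N - ((k : ℝ) - h - 1) * (1 + E / N)) * (m4 - 1) := by
          refine mul_le_mul_of_nonneg_right ?_ hm41
          nlinarith
        linarith
  · have e : (k : ℝ) - 1 - 1 = k - 2 := by ring
    rw [e, if_pos rfl]
    have hww : (w : ℝ) * (w - 1) ≤ d * (d - 1) := by nlinarith
    have t1 : (k : ℝ) * (w * (w - 1)) * m2 ≤ (k : ℝ) * (d * (d - 1)) * m2 := by
      refine mul_le_mul_of_nonneg_right (mul_le_mul_of_nonneg_left hww ?_) ?_ <;> linarith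
    have t2 : 2 * (N + 1) * e1 ≤ 2 * (N + 1) * (N - ((k : ℝ) - 2) * (1 + E / N)) := by
      refine mul_le_mul_of_nonneg_left hD1 ?_
      linarith
    linarith

end Pool.Agent.Lib.MP_99e3ed_co.H98
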