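import Pool.Agent.Lib.MP_99e3ed_co.H98.ZCount

/-!
Ratio form of Kahn's conjecture: the arithmetic part of (Z) for `k ≥ 5`.
-/

set_option autoImplicit false

open Finset

namespace Pool.Agent.Lib.MP_99e3ed_co.H98

/-- region 1, `k ≥ 6`, constant `1.6` -/
lemma reg1_k6 (k w d : ℕ) (N E M : ℝ) (c : ℕ → ℝ) (H : Hyp k w d N E c) (hk : 6 ≤ k)
    (hd : 3 ≤ d)
    (hE : E ≤ 2 * d * (N - M)) (hM : (k : ℝ) - 1 + (5 / 8 * k - 1) * (d : ℝ) ≤ M) :
    ∑ h ∈ range (k + 1), (w.choose h : ℝ) * c (k - h) ≤ (N + w) * c (k - 1) := by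
  have hdr : (3 : ℝ) ≤ d := by exact_mod_cast hd
  have hkr : (6 : ℝ) ≤ k := by exact_mod_cast hk
  have hM0 : 0 ≤ M := by nlinarith
  have hNM : M ≤ N := by
    have := H.hE
    by_contra h
    push Not at h
    nlinarith
  obtain ⟨a, ha⟩ : ∃ a : ℝ, (k : ℝ) = 6 + a := ⟨k - 6, by ring⟩
  have ha0 : 0 ≤ a := by linarith
  obtain ⟨b, hb⟩ : ∃ b : ℝ, (d : ℝ) = 3 + b := ⟨d - 3, by ring⟩
  have hb0 : 0 ≤ b := by linarith
  have key : ∀ κ : ℝ, 0 ≤ κ → 8 * d * κ * ((k : ℝ) - 1 + (5 / 8 * k - 1) * (d : ℝ)) ≤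
      8 * d * κ * M := by
    intro κ hκ
    exact mul_le_mul_of_nonneg_left hM (by positivity)
  refine reg1 k w d N E M (k * (k - 2) / 4 * d ^ 2) c ((2 * k + 9) / 10 * d) ((k + 7) / 5 * d)
    ((k - 2) / 2) (1 + 5 * (k - 3) / 44) ((k + 7) / 11) H
    (by omega) hE ?_ (by linarith) (by linarith) (by linarith)
    ?_ ?_ ?_ ?_ ?_ ?_ ?_
  · have : 0 < (k : ℝ) * (k - 2) / 4 := by nlinarith
    positivity
  · refine le_trans ?_ (key _ (by linarith))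
    rw [ha, hb]
    nlinarith [mul_nonneg ha0 hb0, mul_nonneg ha0 ha0, mul_nonneg hb0 hb0,
      mul_nonneg (mul_nonneg ha0 ha0) hb0, mul_nonneg (mul_nonneg ha0 hb0) hb0,
      mul_nonneg (mul_nonneg ha0 ha0) (mul_nonneg hb0 hb0)]
  · refine r1a N d _ M E _ H.hN (by linarith) hE ?_
    refine le_trans ?_ (key _ (by linarith))
    rw [ha, hb]
    nlinarith [mul_nonneg ha0 hb0, mul_nonneg ha0 ha0, mul_nonneg hb0 hb0,
      mul_nonneg (mul_nonneg ha0 ha0) hb0, mul_nonneg (mul_nonneg ha0 hb0) hb0,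
      mul_nonneg (mul_nonneg ha0 ha0) (mul_nonneg hb0 hb0)]
  · intro _
    refine r1a N d _ M E _ H.hN (by linarith) hE ?_
    refine le_trans ?_ (key _ (by linarith))
    rw [ha, hb]
    nlinarith [mul_nonneg ha0 hb0, mul_nonneg ha0 ha0, mul_nonneg hb0 hb0,
      mul_nonneg (mul_nonneg ha0 ha0) hb0, mul_nonneg (mul_nonneg ha0 hb0) hb0,
      mul_nonneg (mul_nonneg ha0 ha0) (mul_nonneg hb0 hb0)]
  · have h1 : (d : ℝ) * (d - 1) ≤ d ^ 2 := by nlinarith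
    have h2 : (0 : ℝ) ≤ k * ((k - 2) / 2) := by nlinarith
    nlinarith [mul_le_mul_of_nonneg_left h1 h2]
  · intro _
    rw [ha, hb]
    nlinarith [mul_nonneg ha0 hb0, mul_nonneg ha0 ha0, mul_nonneg hb0 hb0,
      mul_nonneg (mul_nonneg ha0 ha0) hb0]
  · intro _ _
    rw [ha, hb]
    nlinarith [mul_nonneg ha0 hb0, mul_nonneg ha0 ha0, mul_nonneg hb0 hb0,
      mul_nonneg (mul_nonneg ha0 ha0) hb0]
  · intro _ _
    rw [ha, hb]
    nlinarith [mul_nonneg ha0 hb0, mul_nonneg ha0 ha0, mul_nonneg hb0 hb0,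
      mul_nonneg (mul_nonneg ha0 ha0) hb0]

/-- region 2, `k ≥ 5`, constant `0.83` -/
lemma reg2_k5 (k w d : ℕ) (N E : ℝ) (c : ℕ → ℝ) (H : Hyp k w d N E c) (hk : 5 ≤ k)
    (hd : 3 ≤ d) (hE : E ≤ N * d)
    (hN : (k : ℝ) + 100 / 83 * (k * d) - 2 * d + 1 ≤ N) :
    ∑ h ∈ range (k + 1), (w.choose h : ℝ) * c (k - h) ≤ (N + w) * c (k - 1) := by
  have hdr : (3 : ℝ) ≤ d := by exact_mod_cast hd
  have hkr : (5 : ℝ) ≤ k := by exact_mod_cast hk
  obtain ⟨a, ha⟩ : ∃ a : ℝ, (k : ℝ) = 5 + a := ⟨k - 5, by ring⟩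
  have ha0 : 0 ≤ a := by linarith
  obtain ⟨b, hb⟩ : ∃ b : ℝ, (d : ℝ) = 3 + b := ⟨d - 3, by ring⟩
  have hb0 : 0 ≤ b := by linarith
  have hkd : (0 : ℝ) ≤ k * d := by positivity
  have e1 : 17 / 83 * (k * d) + 3 ≤ N - ((k : ℝ) - 2) * (1 + d) := by nlinarith
  have e2 : (1 + 17 / 83 * k) * d + 4 ≤ N - ((k : ℝ) - 3) * (1 + d) := by nlinarith
  have e3 : (2 + 17 / 83 * k) * d + 5 ≤ N - ((k : ℝ) - 4) * (1 + d) := by nlinarith
  have e4 : (3 + 17 / 83 * k) * d + 6 ≤ N - ((k : ℝ) - 5) * (1 + d) := by nlinarith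
  have hN1 : (100 / 83 * k - 2) * d ≤ N + 1 := by nlinarith
  have hm2 : (1 : ℝ) ≤ 34 / 83 * (100 / 83 * k - 2) := by linarith
  have hm3 : (1 : ℝ) ≤ 1 + 5 * (k - 3) / 57 := by linarith
  have hm4 : (1 : ℝ) ≤ 5 * (3 + 17 / 83 * k) / 19 := by linarith
  refine reg2 k w d N E c (34 / 83 * (100 / 83 * k - 2)) (1 + 5 * (k - 3) / 57)
    (5 * (3 + 17 / 83 * k) / 19) H (by omega) hE hm2 hm3 hm4 ?_ ?_ ?_ ?_ ?_
  · linarith
  · have h1 : (d : ℝ) * (d - 1) ≤ d ^ 2 := by nlinarith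
    have h2 : (0 : ℝ) ≤ k * (34 / 83 * (100 / 83 * k - 2)) := by nlinarith
    have h3 : (100 / 83 * k - 2) * d * (17 / 83 * (k * d)) ≤
        (N + 1) * (N - ((k : ℝ) - 2) * (1 + d)) := by
      refine mul_le_mul hN1 (by linarith) (by positivity) ?_
      have : 0 ≤ (100 / 83 * (k : ℝ) - 2) * d := by
        refine mul_nonneg (by linarith) (by linarith)
      linarith
    nlinarith [mul_le_mul_of_nonneg_left h1 h2]
  · intro _
    have h1 : 3 * ((1 + 17 / 83 * k) * d) * (34 / 83 * (100 / 83 * k - 2) - 1) ≤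
        3 * (N - ((k : ℝ) - 3) * (1 + d)) * (34 / 83 * (100 / 83 * k - 2) - 1) := by
      refine mul_le_mul_of_nonneg_right (by linarith) (by linarith)
    refine le_trans ?_ h1
    rw [ha, hb]
    nlinarith [mul_nonneg ha0 hb0, mul_nonneg ha0 ha0, mul_nonneg hb0 hb0,
      mul_nonneg (mul_nonneg ha0 ha0) hb0]
  · intro _ _
    have h1 : 4 * ((2 + 17 / 83 * k) * d) * (1 + 5 * (k - 3) / 57 - 1) ≤
        4 * (N - ((k : ℝ) - 4) * (1 + d)) * (1 + 5 * (k - 3) / 57 - 1) := by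
      refine mul_le_mul_of_nonneg_right (by linarith) (by linarith)
    refine le_trans ?_ h1
    rw [ha, hb]
    nlinarith [mul_nonneg ha0 hb0, mul_nonneg ha0 ha0, mul_nonneg hb0 hb0,
      mul_nonneg (mul_nonneg ha0 ha0) hb0]
  · intro _ _
    have h1 : 5 * ((3 + 17 / 83 * k) * d) * (5 * (3 + 17 / 83 * k) / 19 - 1) ≤
        5 * (N - ((k : ℝ) - 5) * (1 + d)) * (5 * (3 + 17 / 83 * k) / 19 - 1) := by
      refine mul_le_mul_of_nonneg_right (by linarith) (by linarith)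
    refine le_trans ?_ h1
    rw [ha, hb]
    nlinarith [mul_nonneg ha0 hb0, mul_nonneg ha0 ha0, mul_nonneg hb0 hb0,
      mul_nonneg (mul_nonneg ha0 ha0) hb0]

end Pool.Agent.Lib.MP_99e3ed_co.H98
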