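import Pool.Agent.Lib.MP_99e3ed_co.H98.ZAlg

/-!
Ratio form of Kahn's conjecture: the arithmetic part of (Z).
-/

set_option autoImplicit false

open Finset

namespace Pool.Agent.Lib.MP_99e3ed_co.H98

/-- region 1: lower bound of `N - κ (1 + E / N)` -/
lemma r1a (N d κ M E e : ℝ) (hN : 0 < N) (hκ : 0 ≤ κ)
    (hE : E ≤ 2 * d * (N - M)) (h : (κ * (1 + 2 * d) + e) ^ 2 ≤ 8 * d * κ * M) :
    e ≤ N - κ * (1 + E / N) := by
  have h1 : κ * E ≤ κ * (2 * d * (N - M)) := mul_le_mul_of_nonneg_left hE hκ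
  have h2 : N * e ≤ N * (N - κ * (1 + E / N)) := by
    have : N * (N - κ * (1 + E / N)) = N ^ 2 - κ * N - κ * E := by
      field_simp
      ring
    rw [this]
    nlinarith [sq_nonneg (2 * N - (κ * (1 + 2 * d) + e))]
  exact le_of_mul_le_mul_left h2 hN

lemma r1b (N d κ M E P : ℝ) (hN : 0 < N) (hκ : 0 ≤ κ)
    (hE : E ≤ 2 * d * (N - M)) (h : 4 * P + (κ * (1 + 2 * d)) ^ 2 ≤ 8 * d * κ * M) :
    P / N ≤ N - κ * (1 + E / N) := by
  have h1 : κ * E ≤ κ * (2 * d * (N - M)) := mul_le_mul_of_nonneg_left hE hκ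
  rw [div_le_iff₀ hN]
  have : (N - κ * (1 + E / N)) * N = N ^ 2 - κ * N - κ * E := by
    field_simp
    ring
  rw [this]
  nlinarith [sq_nonneg (2 * N - (κ * (1 + 2 * d)))]

/-- region 2: lower bound of `N - κ (1 + E / N)` -/
lemma r2a (N d κ E : ℝ) (hN : 0 < N) (hκ : 0 ≤ κ) (hE : E ≤ N * d) :
    N - κ * (1 + d) ≤ N - κ * (1 + E / N) := by
  have : E / N ≤ d := by
    rw [div_le_iff₀ hN]
    linarith
  nlinarith

/-- the hypotheses on the sequence -/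
structure Hyp (k w d : ℕ) (N E : ℝ) (c : ℕ → ℝ) : Prop where
  hwd : w ≤ d
  hw2 : 2 ≤ w
  hN : 0 < N
  hE : 0 ≤ E
  hc : ∀ t, 0 ≤ c t
  h0 : (k : ℝ) * c k ≤ (N - k + 1) * c (k - 1)
  h1 : ∀ t : ℕ, 1 ≤ t → t ≤ k - 1 → (N - (t - 1) * (1 + E / N)) * c (t - 1) ≤ t * c t

/-- region 2, general -/
lemma reg2 (k w d : ℕ) (N E : ℝ) (c : ℕ → ℝ) (m2 m3 m4 : ℝ) (H : Hyp k w d N E c)
    (hk : 3 ≤ k) (hE : E ≤ N * d)
    (hm2 : 1 ≤ m2) (hm3 : 1 ≤ m3) (hm4 : 1 ≤ m4)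
    (he1 : 0 < N - ((k : ℝ) - 2) * (1 + d))
    (c1 : (k : ℝ) * (d * (d - 1)) * m2 ≤ 2 * (N + 1) * (N - ((k : ℝ) - 2) * (1 + d)))
    (c2 : 3 ≤ d → ((d : ℝ) - 2) * ((k : ℝ) - 2) * m3 ≤
      3 * (N - ((k : ℝ) - 3) * (1 + d)) * (m2 - 1))
    (c3 : 4 ≤ k → 4 ≤ d → ((d : ℝ) - 3) * ((k : ℝ) - 3) * m4 ≤
      4 * (N - ((k : ℝ) - 4) * (1 + d)) * (m3 - 1))
    (c4 : 5 ≤ k → 5 ≤ d → ((d : ℝ) - 4) * ((k : ℝ) - 4) * m4 ≤
      5 * (N - ((k : ℝ) - 5) * (1 + d)) * (m4 - 1)) :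
    ∑ h ∈ range (k + 1), (w.choose h : ℝ) * c (k - h) ≤ (N + w) * c (k - 1) := by
  have hkr : (3 : ℝ) ≤ k := by exact_mod_cast hk
  refine zalg4 k w d N E c _ _ _ _ m2 m3 m4 hk H.hwd H.hw2 H.hN H.hE H.hc H.h0 H.h1 hm2 hm3 hm4
    he1 ?_ ?_ ?_ ?_ c1 c2 c3 c4
  · exact r2a N d _ E H.hN (by linarith) hE
  · exact r2a N d _ E H.hN (by linarith) hE
  · intro h4
    have : (4 : ℝ) ≤ k := by exact_mod_cast h4
    exact r2a N d _ E H.hN (by linarith) hE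
  · intro h5
    have : (5 : ℝ) ≤ k := by exact_mod_cast h5
    exact r2a N d _ E H.hN (by linarith) hE

/-- region 1, general -/
lemma reg1 (k w d : ℕ) (N E M P : ℝ) (c : ℕ → ℝ) (e2 e3 m2 m3 m4 : ℝ) (H : Hyp k w d N E c)
    (hk : 3 ≤ k) (hE : E ≤ 2 * d * (N - M)) (hP : 0 < P)
    (hm2 : 1 ≤ m2) (hm3 : 1 ≤ m3) (hm4 : 1 ≤ m4)
    (hp1 : 4 * P + (((k : ℝ) - 2) * (1 + 2 * d)) ^ 2 ≤ 8 * d * ((k : ℝ) - 2) * M)
    (hp2 : e2 ≤ N - ((k : ℝ) - 3) * (1 + E / N))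
    (hp3 : 4 ≤ k → e3 ≤ N - ((k : ℝ) - 4) * (1 + E / N))
    (c1 : (k : ℝ) * (d * (d - 1)) * m2 ≤ 2 * P)
    (c2 : 3 ≤ d → ((d : ℝ) - 2) * ((k : ℝ) - 2) * m3 ≤ 3 * e2 * (m2 - 1))
    (c3 : 4 ≤ k → 4 ≤ d → ((d : ℝ) - 3) * ((k : ℝ) - 3) * m4 ≤ 4 * e3 * (m3 - 1))
    (c4 : 5 ≤ k → 5 ≤ d → ((d : ℝ) - 4) * ((k : ℝ) - 4) * m4 ≤ 5 * e3 * (m4 - 1)) :
    ∑ h ∈ range (k + 1), (w.choose h : ℝ) * c (k - h) ≤ (N + w) * c (k - 1) := by
  have hkr : (3 : ℝ) ≤ k := by exact_mod_cast hk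
  have hN := H.hN
  have hB : 0 ≤ 1 + E / N := by
    have := H.hE
    positivity
  refine zalg4 k w d N E c (P / N) e2 e3 e3 m2 m3 m4 hk H.hwd H.hw2 H.hN H.hE H.hc H.h0 H.h1
    hm2 hm3 hm4 (by positivity) ?_ hp2 hp3 ?_ ?_ c2 c3 c4
  · exact r1b N d _ M E P H.hN (by linarith) hE hp1
  · intro h5
    have : ((k : ℝ) - 5) * (1 + E / N) ≤ ((k : ℝ) - 4) * (1 + E / N) :=
      mul_le_mul_of_nonneg_right (by linarith) hB
    linarith [hp3 (by omega)]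
  · refine c1.trans ?_
    have : 2 * (N + 1) * (P / N) = 2 * P + 2 * P / N := by
      field_simp
    rw [this]
    have : 0 < 2 * P / N := by positivity
    linarith

/-- region 2, `k = 3` -/
lemma reg2_k3 (w d : ℕ) (N E : ℝ) (c : ℕ → ℝ) (H : Hyp 3 w d N E c) (hd : 3 ≤ d)
    (hE : E ≤ N * d) (hN : 300 * d + 219 ≤ 73 * (N + 2 * d - 1)) :
    ∑ h ∈ range (3 + 1), (w.choose h : ℝ) * c (3 - h) ≤ (N + w) * c (3 - 1) := by
  have hdr : (3 : ℝ) ≤ d := by exact_mod_cast hd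
  refine reg2 3 w d N E c (6 / 5) 1 1 H le_rfl hE (by norm_num) le_rfl le_rfl ?_ ?_ ?_ ?_ ?_
  · push_cast; linarith
  · push_cast
    nlinarith
  · intro _; push_cast; nlinarith
  · intro h; omega
  · intro h; omega

/-- region 1, `k = 3` -/
lemma reg1_k3 (w d : ℕ) (N E M : ℝ) (c : ℕ → ℝ) (H : Hyp 3 w d N E c) (hd : 3 ≤ d)
    (hE : E ≤ 2 * d * (N - M)) (hM : 2 + 3 / 2 * (d : ℝ) ≤ M) :
    ∑ h ∈ range (3 + 1), (w.choose h : ℝ) * c (3 - h) ≤ (N + w) * c (3 - 1) := by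
  have hdr : (3 : ℝ) ≤ d := by exact_mod_cast hd
  have hNM : M ≤ N := by
    have := H.hE
    by_contra h
    push Not at h
    nlinarith
  refine reg1 3 w d N E M (2 * d ^ 2) c N N (4 / 3) 1 1 H le_rfl hE (by positivity)
    (by norm_num) le_rfl le_rfl ?_ ?_ ?_ ?_ ?_ ?_ ?_
  · push_cast
    nlinarith
  · push_cast
    linarith
  · intro h; omega
  · push_cast
    nlinarith
  · intro _; push_cast; nlinarith
  · intro h; omega
  · intro h; omega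

/-- region 2, `k = 4` -/
lemma reg2_k4 (w d : ℕ) (N E : ℝ) (c : ℕ → ℝ) (H : Hyp 4 w d N E c) (hd : 3 ≤ d)
    (hE : E ≤ N * d) (hN : 400 * d + 296 ≤ 74 * (N + 2 * d - 1)) :
    ∑ h ∈ range (4 + 1), (w.choose h : ℝ) * c (4 - h) ≤ (N + w) * c (4 - 1) := by
  have hdr : (3 : ℝ) ≤ d := by exact_mod_cast hd
  refine reg2 4 w d N E c 2 (3 / 2) 1 H (by norm_num) hE (by norm_num) (by norm_num) le_rfl
    ?_ ?_ ?_ ?_ ?_
  · push_cast; linarith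
  · push_cast
    nlinarith
  · intro _; push_cast; nlinarith
  · intro _ _; push_cast; nlinarith
  · intro h; omega

/-- region A, `k = 4` -/
lemma regA_k4 (w d : ℕ) (N E : ℝ) (c : ℕ → ℝ) (H : Hyp 4 w d N E c) (hd : 3 ≤ d)
    (hE : E ≤ N * d) (hN : 4 * (d : ℝ) + 2 ≤ N) :
    ∑ h ∈ range (4 + 1), (w.choose h : ℝ) * c (4 - h) ≤ (N + w) * c (4 - 1) := by
  have hdr : (3 : ℝ) ≤ d := by exact_mod_cast hd
  refine reg2 4 w d N E c 2 (3 / 2) 1 H (by norm_num) hE (by norm_num) (by norm_num) le_rfl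
    ?_ ?_ ?_ ?_ ?_
  · push_cast; linarith
  · push_cast
    nlinarith
  · intro _; push_cast; nlinarith
  · intro _ _; push_cast; nlinarith
  · intro h; omega

/-- region 1, `k = 4` -/
lemma reg1_k4 (w d : ℕ) (N E M : ℝ) (c : ℕ → ℝ) (H : Hyp 4 w d N E c) (hd : 3 ≤ d)
    (hE : E ≤ 2 * d * (N - M)) (hM : 3 + 261 / 139 * (d : ℝ) ≤ M) :
    ∑ h ∈ range (4 + 1), (w.choose h : ℝ) * c (4 - h) ≤ (N + w) * c (4 - 1) := by
  have hdr : (3 : ℝ) ≤ d := by exact_mod_cast hd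
  have hNM : M ≤ N := by
    have := H.hE
    by_contra h
    push Not at h
    nlinarith
  refine reg1 4 w d N E M (35 / 10 * d ^ 2) c (18 / 10 * d) N (175 / 100) (3 / 2) 1 H
    (by norm_num) hE (by positivity) (by norm_num) (by norm_num) le_rfl ?_ ?_ ?_ ?_ ?_ ?_ ?_
  · push_cast
    nlinarith
  · refine r1a N d _ M E _ H.hN (by norm_num) hE ?_
    push_cast
    nlinarith
  · intro _
    push_cast
    linarith
  · push_cast
    nlinarith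
  · intro _; push_cast; nlinarith
  · intro _ _; push_cast; nlinarith
  · intro h; omega

/-- region 1, `k = 5`, constant `1.55` -/
lemma reg1_k5 (w d : ℕ) (N E M : ℝ) (c : ℕ → ℝ) (H : Hyp 5 w d N E c) (hd : 3 ≤ d)
    (hE : E ≤ 2 * d * (N - M)) (hM : 4 + 69 / 31 * (d : ℝ) ≤ M) :
    ∑ h ∈ range (5 + 1), (w.choose h : ℝ) * c (5 - h) ≤ (N + w) * c (5 - 1) := by
  have hdr : (3 : ℝ) ≤ d := by exact_mod_cast hd
  have hNM : M ≤ N := by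
    have := H.hE
    by_contra h
    push Not at h
    nlinarith
  refine reg1 5 w d N E M (435 / 100 * d ^ 2) c (196 / 100 * d) (2 * d) (174 / 100) (14 / 10)
    (5 / 4) H
    (by norm_num) hE (by positivity) (by norm_num) (by norm_num) (by norm_num)
    ?_ ?_ ?_ ?_ ?_ ?_ ?_
  · push_cast
    nlinarith
  · refine r1a N d _ M E _ H.hN (by norm_num) hE ?_
    push_cast
    nlinarith
  · intro _
    refine r1a N d _ M E _ H.hN (by norm_num) hE ?_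
    push_cast
    nlinarith
  · push_cast
    nlinarith
  · intro _; push_cast; nlinarith
  · intro _ _; push_cast; nlinarith
  · intro _ _; push_cast; nlinarith

end Pool.Agent.Lib.MP_99e3ed_co.H98
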